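import Pool.Agent.S3.W.Far
import Pool.Agent.S3.FlatT

/-!
# The flat inequalities of an edge between open vertices with at least three twists
-/

set_option autoImplicit false

namespace Pool.Agent.S3

open Complex
open Pool.Agent.H25.RK (gdv)

variable {θ θ' v1 v1' : ℝ} {v w : ℂ}

theorem Ht.tan' (h : Ht θ) : Real.tan θ ^ 2 ≤ 53 / 147 := by
  have := h.tan
  linarith

theorem Und.kore (h : Und θ v) (hx : v.re ≤ 13 / 40) : Kore θ v :=
  Kore_of_bl (by rw [abs_of_nonneg h.re0]; exact hx) (by rw [abs_of_nonneg h.im0]; exact h.im1)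

/-- The strict flat inequality for a pair. -/
theorem Pr.flat_lt (h : Pr θ θ' v w) (h1 : v.re ≤ 13 / 40) (h2 : w.re ≤ 13 / 40) {t : ℝ}
    (ht : 0 ≤ t) (ht' : t ≤ 1 / 2) (hne : t ≠ (yv v w).re) :
    EE (.op v) (.op ((starRingEnd ℂ) w)) ((t : ℂ) + (yv v w).im * I) <
      EE (.op v) (.op ((starRingEnd ℂ) w)) (yv v w) := by
  obtain ⟨s1, s2⟩ := h.yv_re
  have k1 := (h.hv.kore h1).KA' h.hθ.tan'
  have k2 := (h.hw.kore h2).conj.KA' h.hθ'.tan'
  have e := h.yv_eq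
  rw [← re_add_im (yv v w)] at e
  have := EE_flat_lt s1 s2 ht ht' hne (h.hv.kore h1).cos_ne (h.hw.kore h2).conj.cos_ne e
    (flatUV_of_KA k1 k2)
  rw [re_add_im] at this
  exact this

theorem Pr.flatOK (h : Pr θ θ' v w) (h1 : v.re ≤ 13 / 40) (h2 : w.re ≤ 13 / 40) : FlatOK v w := by
  intro t ht
  by_cases hne : t = (yv v w).re
  · rw [hne, re_add_im]
  · exact (h.flat_lt h1 h2 ht.1 ht.2 hne).le

theorem flatAll_of (hθ : Ht θ) (hθ' : Ht θ') (hS : θ + θ' < Real.pi / 2) (h1 : v1 ≤ 13 / 40)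
    (h2 : v1' ≤ 13 / 40) : FlatAll θ θ' v1 v1' :=
  fun _ _ hv hw k1 k2 => (Pr.mk hv hw hθ hθ' hS).flatOK (k1.trans h1) (k2.trans h2)

theorem flatC_of {Φ : ℂ → ℂ → ℂ} {xc xc' b b' : ℝ} (H : OO Φ θ θ' xc xc' b b' v1 v1')
    (h1 : v1 ≤ 13 / 40) (h2 : v1' ≤ 13 / 40) : FlatC θ θ' xc xc' := by
  intro t ht hne
  have := H.prc.flat_lt (H.hr.le.trans h1) (H.hr'.le.trans h2) (t := t) ht.1 ht.2
    (by rw [H.yv_c]; exact hne)
  rw [H.yv_c] at this
  exact this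

end Pool.Agent.S3
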