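import Pool.Agent.S3.W.Far

/-!
# The gain on the verticals

On the vertical `re v = 13/40` below the `u`-line of height `θ ≥ 7/25` the rate `Re Φ` drops by at
least `π/20` per unit height: `im q ≥ 1.095 s` at the height `s / π`.
-/

set_option autoImplicit false

namespace Pool.Agent.S3

open Complex
open Pool.Agent.H25.RK (gdv gdv_re_lt gdv_hasDerivAt)

section

variable {θ θ' v1 v1' μ μ' : ℝ} {v w : ℂ} {Φ : ℂ → ℂ → ℂ}

theorem im_qq_sq (u w : ℂ) :
    (sinh u / cosh w).im ^ 2 ≤ (qq u w).im ^ 2 * (1 + normSq (sinh u / cosh w)) := by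
  rw [← sinh_qq]
  obtain ⟨q, hq⟩ : ∃ q, q = qq u w := ⟨_, rfl⟩
  rw [← hq, normSq_apply, sinh_re', sinh_im']
  have h1 := Real.cosh_sq q.re
  have h2 := Real.sin_sq_add_cos_sq q.im
  have h3 : Real.sin q.im ^ 2 ≤ q.im ^ 2 := Real.sin_sq_le_sq
  have e : 1 + (Real.sinh q.re * Real.cos q.im * (Real.sinh q.re * Real.cos q.im) +
      Real.cosh q.re * Real.sin q.im * (Real.cosh q.re * Real.sin q.im)) =
      Real.cosh q.re ^ 2 + Real.sin q.im ^ 2 := by
    linear_combination (Real.sin q.im ^ 2 - 1) * h1 + Real.sinh q.re ^ 2 * h2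
  rw [e, mul_pow]
  have h4 := mul_le_mul_of_nonneg_left h3 (sq_nonneg (Real.cosh q.re))
  have h5 : 0 ≤ q.im ^ 2 * Real.sin q.im ^ 2 := by positivity
  linarith only [h5, h4]

theorem gain_alg {p x k d : ℝ} (hp0 : 27 / 100 ≤ p) (hp : p ≤ 2744 / 10000) (hx0 : 0 ≤ x)
    (hx : 147 * x ≤ 53 * p) (hk : 1 / 4 ≤ k) (hd0 : 0 ≤ d) (hd : 147 * d ≤ 53 * k) :
    6 / 5 * (p + x) * (p + x + (1 - p + x) * (k + d)) ≤ (1 + x) * k * (1 + d) := by
  -- linear in `d`
  have hx1 : x ≤ 99 / 1000 := by linarith only [hx, hp]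
  have hA : 0 ≤ (1 + x) - 6 / 5 * (p + x) * (1 - p + x) * (200 / 147) := by linarith only [hx, hp,
                                                                              mul_nonneg (sub_nonneg.2 hx0) (sub_nonneg.2 hx),
                                                                              mul_nonneg (sub_nonneg.2 hp) (sub_nonneg.2 hx0),
                                                                              mul_nonneg (sub_nonneg.2 hp) (sub_nonneg.2 hp)]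
  -- at `d = 0`
  have g0 : 6 / 5 * (p + x) * (p + x + (1 - p + x) * k) ≤ (1 + x) * k := by
    have h1 : 6 / 5 * (p + x) * (p + x + (1 - p + x) * (1 / 4)) ≤ (1 + x) * (1 / 4) := by
      linarith only [hx, hp, mul_nonneg (sub_nonneg.2 hx0) (sub_nonneg.2 hx),
        mul_nonneg (sub_nonneg.2 hp) (sub_nonneg.2 hx),
        mul_nonneg (sub_nonneg.2 hp) (sub_nonneg.2 hx0)]
    have h2 : 0 ≤ (k - 1 / 4) * ((1 + x) - 6 / 5 * (p + x) * (1 - p + x)) := by
      apply mul_nonneg (by linarith only [hk])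
      have : 0 ≤ 6 / 5 * (p + x) * (1 - p + x) := by
        have : 0 ≤ 1 - p + x := by linarith only [hx0, hp]
        positivity
      linarith only [hA, hx0]
    linarith only [h2, h1]
  -- at `d = 53 k / 147`
  have g1 : 6 / 5 * (p + x) * (p + x + (1 - p + x) * (200 / 147 * k)) ≤
      (1 + x) * k * (1 + 53 / 147 * k) := by
    have h1 : 6 / 5 * (p + x) * (p + x + (1 - p + x) * (200 / 147 * (1 / 4))) ≤
        (1 + x) * (1 / 4) * (1 + 53 / 147 * (1 / 4)) := by
      linarith only [hx, hp, mul_nonneg (sub_nonneg.2 hx0) (sub_nonneg.2 hx),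
        mul_nonneg (sub_nonneg.2 hp) (sub_nonneg.2 hx),
        mul_nonneg (sub_nonneg.2 hp) (sub_nonneg.2 hx0)]
    have h2 : 0 ≤ (k - 1 / 4) * ((1 + x) - 6 / 5 * (p + x) * (1 - p + x) * (200 / 147)) :=
      mul_nonneg (by linarith only [hk]) hA
    have h3 : 0 ≤ (1 + x) * (53 / 147) * (k ^ 2 - (1 / 4) ^ 2) := by
      apply mul_nonneg (by positivity)
      linarith only [hk, mul_nonneg (sub_nonneg.2 hk) (sub_nonneg.2 hk)]
    linarith only [h3, h2, h1]
  have hk0 : 0 < k := by linarith only [hk]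
  -- convex combination
  have h3 : 0 ≤ (53 * k - 147 * d) * ((1 + x) * k - 6 / 5 * (p + x) * (p + x + (1 - p + x) * k)) :=
    mul_nonneg (by linarith only [hd]) (by linarith only [g0])
  have h4 : 0 ≤ (147 * d) * ((1 + x) * k * (1 + 53 / 147 * k) -
      6 / 5 * (p + x) * (p + x + (1 - p + x) * (200 / 147 * k))) :=
    mul_nonneg (by linarith only [hd0]) (by linarith only [g1])
  have h5 : 0 ≤ k * ((1 + x) * k * (1 + d) - 6 / 5 * (p + x) * (p + x + (1 - p + x) * (k + d))) := by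
    linarith only [h4, h3]
  have h6 := nonneg_of_mul_nonneg_right h5 hk0
  linarith only [h6]

theorem cos_sq_v1 : 2718 / 10000 ≤ Real.cos (Real.pi * (13 / 40)) ^ 2 ∧
    Real.cos (Real.pi * (13 / 40)) ^ 2 ≤ 2744 / 10000 := by
  have e : Real.cos (Real.pi * (13 / 40)) ^ 2 = 1 / 2 - Real.sin (Real.pi * (3 / 20)) / 2 := by
    rw [Real.cos_sq, show 2 * (Real.pi * (13 / 40)) = Real.pi * (3 / 20) + Real.pi / 2 by ring,
      Real.cos_add_pi_div_two]
    ring
  have h1 := Real.pi_gt_d4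
  have h2 := Real.pi_lt_d4
  obtain ⟨x, hx⟩ : ∃ x, x = Real.pi * (3 / 20) := ⟨_, rfl⟩
  rw [e, ← hx]
  have x1 : 4712 / 10000 ≤ x := by rw [hx]; linarith only [h1]
  have x2 : x ≤ 4713 / 10000 := by rw [hx]; linarith only [h2]
  have hb := Real.sin_bound (x := x) (by rw [abs_of_pos (by linarith only [hx, h2, h1])]; linarith only [hx,
                                                                                            h2, h1])
  rw [abs_of_pos (show 0 < x by linarith only [hx, h2, h1])] at hb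
  have hb' := abs_le.1 hb
  have y1 : x ^ 3 ≤ (4713 / 10000) ^ 3 := pow_le_pow_left₀ (by linarith only [hx, h2, h1]) x2 3
  have y2 : (4712 / 10000) ^ 3 ≤ x ^ 3 := pow_le_pow_left₀ (by norm_num) x1 3
  have y3 : x ^ 5 ≤ (4713 / 10000) ^ 5 := pow_le_pow_left₀ (by linarith only [hx, h2, h1]) x2 5
  norm_num at y1 y2 y3
  constructor <;> linarith [hb'.1, hb'.2]

/-- The phase of `q` on the vertical. -/
theorem Pr.im_qq_ge (h : Pr θ θ' v w) (hv : v.re = 13 / 40) :
    1095 / 1000 * (Real.pi * v.im) ≤ (qq (uof v) ((starRingEnd ℂ) (uof w))).im := by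
  have hq := h.qo
  have hpi := Real.pi_pos
  obtain ⟨w1, w2, w3, w4, w5⟩ := h.hw.u h.hθ'
  have q0 : 0 ≤ (qq (uof v) ((starRingEnd ℂ) (uof w))).im :=
    qq_im_nonneg hq.reg hq.ur (by rw [conj_re]; exact w1) hq.ui (by rw [conj_im]; linarith only [w2])
  have hs := im_qq_sq (uof v) ((starRingEnd ℂ) (uof w))
  obtain ⟨q, hqq⟩ : ∃ q, q = (qq (uof v) ((starRingEnd ℂ) (uof w))).im := ⟨_, rfl⟩
  obtain ⟨z, hz⟩ : ∃ z, z = sinh (uof v) / cosh ((starRingEnd ℂ) (uof w)) := ⟨_, rfl⟩
  rw [← hqq, ← hz] at hs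
  rw [← hqq] at q0 ⊢
  have hPre := pi_re_lt h.hv.abs
  have hcw : cosh ((starRingEnd ℂ) (uof w)) = 1 / (starRingEnd ℂ) (cos (Real.pi * w)) := by
    rw [← conj_cosh', uof, cosh_igd (pi_re_lt h.hw.abs), map_div₀, map_one]
  have hz' : z = sin (Real.pi * v) * (starRingEnd ℂ) (cos (Real.pi * w)) / cos (Real.pi * v) := by
    rw [hz, hcw, uof, sinh_igd, Complex.tan_eq_sin_div_cos, div_div_eq_mul_div, div_one]
    ring
  -- the numbers
  obtain ⟨s, hsd⟩ : ∃ s, s = Real.pi * v.im := ⟨_, rfl⟩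
  have s0 : 0 ≤ s := by rw [hsd]; exact mul_nonneg hpi.le h.hv.im0
  have c1 : (cos (Real.pi * v)).re = Real.cos (Real.pi * v.re) * Real.cosh s := by
    rw [wcos_re, pi_mul_re, pi_mul_im, hsd]
  have c2 : (cos (Real.pi * v)).im = -(Real.sin (Real.pi * v.re) * Real.sinh s) := by
    rw [wcos_im, pi_mul_re, pi_mul_im, hsd]
  have c3 : (sin (Real.pi * v)).re = Real.sin (Real.pi * v.re) * Real.cosh s := by
    rw [wsin_re, pi_mul_re, pi_mul_im, hsd]
  have c4 : (sin (Real.pi * v)).im = Real.cos (Real.pi * v.re) * Real.sinh s := by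
    rw [wsin_im, pi_mul_re, pi_mul_im, hsd]
  have g1 : ((starRingEnd ℂ) (cos (Real.pi * w))).re =
      Real.cos (Real.pi * w.re) * Real.cosh (Real.pi * w.im) := by
    rw [conj_re, wcos_re, pi_mul_re, pi_mul_im]
  have g2 : ((starRingEnd ℂ) (cos (Real.pi * w))).im =
      Real.sin (Real.pi * w.re) * Real.sinh (Real.pi * w.im) := by
    rw [conj_im, wcos_im, pi_mul_re, pi_mul_im, neg_neg]
  obtain ⟨g, hg⟩ : ∃ g, g = (starRingEnd ℂ) (cos (Real.pi * w)) := ⟨_, rfl⟩
  rw [← hg] at g1 g2 hz'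
  have a1 := Real.sin_sq_add_cos_sq (Real.pi * v.re)
  have a2 := Real.cosh_sq s
  have a3 := Real.sin_sq_add_cos_sq (Real.pi * w.re)
  have a4 := Real.cosh_sq (Real.pi * w.im)
  have b1 := h.hv.bl_sinh h.hθ
  have b2 := h.hw.bl_sinh h.hθ'
  rw [← hsd] at b1
  obtain ⟨p1, p2⟩ := cos_sq_v1
  rw [← hv] at p1 p2
  have k1 : 1 / 4 ≤ Real.cos (Real.pi * w.re) ^ 2 := by
    have := h.hw.sin_le
    linarith only [this, a3]
  have key := gain_alg (p := Real.cos (Real.pi * v.re) ^ 2) (x := Real.sinh s ^ 2)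
    (k := Real.cos (Real.pi * w.re) ^ 2) (d := Real.sinh (Real.pi * w.im) ^ 2)
    (by linarith only [p1]) p2 (sq_nonneg _) b1 k1 (sq_nonneg _) b2
  have d0 : 0 < Real.cos (Real.pi * v.re) ^ 2 + Real.sinh s ^ 2 := by
    have := sq_nonneg (Real.sinh s)
    linarith only [this, p1]
  have n1 : normSq (cos (Real.pi * v)) = Real.cos (Real.pi * v.re) ^ 2 + Real.sinh s ^ 2 := by
    rw [normSq_apply, c1, c2]
    linear_combination (Real.cos (Real.pi * v.re)) ^ 2 * a2 + Real.sinh s ^ 2 * a1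
  have n2 : normSq (sin (Real.pi * v)) = 1 - Real.cos (Real.pi * v.re) ^ 2 + Real.sinh s ^ 2 := by
    rw [normSq_apply, c3, c4]
    linear_combination (Real.sin (Real.pi * v.re)) ^ 2 * a2 + (Real.sinh s ^ 2 + 1) * a1
  have n3 : normSq g = Real.cos (Real.pi * w.re) ^ 2 + Real.sinh (Real.pi * w.im) ^ 2 := by
    rw [normSq_apply, g1, g2]
    linear_combination (Real.cos (Real.pi * w.re)) ^ 2 * a4 + Real.sinh (Real.pi * w.im) ^ 2 * a3
  have hz2 : normSq z * normSq (cos (Real.pi * v)) = normSq (sin (Real.pi * v)) * normSq g := by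
    rw [hz', normSq_div, normSq_mul]
    rw [div_mul_cancel₀]
    rw [n1]; exact d0.ne'
  have hz1 : z.im * normSq (cos (Real.pi * v)) = Real.sinh s * Real.cosh s * g.re +
      Real.sin (Real.pi * v.re) * Real.cos (Real.pi * v.re) * g.im := by
    have e : z * (normSq (cos (Real.pi * v)) : ℂ) =
        sin (Real.pi * v) * g * (starRingEnd ℂ) (cos (Real.pi * v)) := by
      rw [← mul_conj, hz']
      have : cos (Real.pi * v) ≠ 0 := cos_ne' hPre
      field_simp
    have e2 := congrArg Complex.im e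
    rw [mul_comm, im_ofReal_mul] at e2
    rw [mul_comm, e2, mul_im, mul_re, mul_im, conj_re, conj_im, c1, c2, c3, c4]
    linear_combination (Real.sin (Real.pi * v.re) * Real.cos (Real.pi * v.re) * g.im) * a2 +
      (Real.sinh s * Real.cosh s * g.re) * a1
  rw [n1] at hz1 hz2
  rw [n2, n3] at hz2
  obtain ⟨D, hD⟩ : ∃ D, D = Real.cos (Real.pi * v.re) ^ 2 + Real.sinh s ^ 2 := ⟨_, rfl⟩
  rw [← hD] at hz1 hz2 d0 key
  -- the lower bound of `im z`
  have sv : 0 ≤ Real.sin (Real.pi * v.re) := Real.sin_nonneg_of_nonneg_of_le_pi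
    (mul_nonneg hpi.le h.hv.re0) (by linarith only [hpi,
                                       mul_nonneg (sub_nonneg.2 hv.le) (sub_nonneg.2 hpi.le),
                                       mul_nonneg (sub_nonneg.2 hv.ge) (sub_nonneg.2 hpi.le)])
  have cv : 0 ≤ Real.cos (Real.pi * v.re) := (cos_pi_pos h.hv.abs).le
  have sw : 0 ≤ Real.sin (Real.pi * w.re) := Real.sin_nonneg_of_nonneg_of_le_pi
    (mul_nonneg hpi.le h.hw.re0) (by linarith only [hpi,
                                       mul_nonneg (sub_nonneg.2 h.hw.re1) (sub_nonneg.2 hpi.le)])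
  have cw : 0 ≤ Real.cos (Real.pi * w.re) := (cos_pi_pos h.hw.abs).le
  have shs : s ≤ Real.sinh s := Real.self_le_sinh_iff.2 s0
  have shw : 0 ≤ Real.sinh (Real.pi * w.im) :=
    Real.sinh_nonneg_iff.2 (mul_nonneg hpi.le h.hw.im0)
  have chs := Real.cosh_pos s
  have chw := Real.cosh_pos (Real.pi * w.im)
  have m1 : Real.sinh s * Real.cosh s * g.re ≤ z.im * D := by
    rw [hz1, g2]
    have : 0 ≤ Real.sin (Real.pi * v.re) * Real.cos (Real.pi * v.re) *
        (Real.sin (Real.pi * w.re) * Real.sinh (Real.pi * w.im)) := by positivity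
    linarith only [this]
  have m2 : 0 ≤ Real.sinh s * Real.cosh s * g.re := by
    rw [g1]
    have := s0.trans shs
    positivity
  have m3 : (Real.sinh s * Real.cosh s * g.re) ^ 2 ≤ (z.im * D) ^ 2 := pow_le_pow_left₀ m2 m1 2
  have m4 : (Real.sinh s * Real.cosh s * g.re) ^ 2 = Real.sinh s ^ 2 *
      ((1 + Real.sinh s ^ 2) * Real.cos (Real.pi * w.re) ^ 2 * (1 + Real.sinh (Real.pi * w.im) ^ 2)) := by
    rw [g1]
    rw [show 1 + Real.sinh s ^ 2 = Real.cosh s ^ 2 by linarith only [a2],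
      show 1 + Real.sinh (Real.pi * w.im) ^ 2 = Real.cosh (Real.pi * w.im) ^ 2 by linarith only [a4]]
    ring
  have m5 : s ^ 2 ≤ Real.sinh s ^ 2 := pow_le_pow_left₀ s0 shs 2
  have m6 : 6 / 5 * s ^ 2 * (1 + normSq z) * D ^ 2 ≤ z.im ^ 2 * D ^ 2 := by
    have e : (1 + normSq z) * D ^ 2 = D * (D + (1 - Real.cos (Real.pi * v.re) ^ 2 +
        Real.sinh s ^ 2) * (Real.cos (Real.pi * w.re) ^ 2 + Real.sinh (Real.pi * w.im) ^ 2)) := by
      rw [← hz2]; ring
    have hA : 0 ≤ (1 - Real.cos (Real.pi * v.re) ^ 2 +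
        Real.sinh s ^ 2) * (Real.cos (Real.pi * w.re) ^ 2 + Real.sinh (Real.pi * w.im) ^ 2) := by
      have : 0 ≤ 1 - Real.cos (Real.pi * v.re) ^ 2 + Real.sinh s ^ 2 := by
        have := sq_nonneg (Real.sinh s)
        linarith only [hD, d0, p2]
      positivity
    rw [mul_assoc, e]
    rw [m4, mul_pow] at m3
    obtain ⟨A, hAA⟩ : ∃ A, A = (1 - Real.cos (Real.pi * v.re) ^ 2 +
        Real.sinh s ^ 2) * (Real.cos (Real.pi * w.re) ^ 2 +
        Real.sinh (Real.pi * w.im) ^ 2) := ⟨_, rfl⟩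
    obtain ⟨B, hBB⟩ : ∃ B, B = (1 + Real.sinh s ^ 2) * Real.cos (Real.pi * w.re) ^ 2 *
        (1 + Real.sinh (Real.pi * w.im) ^ 2) := ⟨_, rfl⟩
    rw [← hAA] at key hA ⊢
    rw [← hBB] at key m3
    have r1 := mul_le_mul_of_nonneg_left key (sq_nonneg (Real.sinh s))
    have r2 : 0 ≤ 6 / 5 * D * (D + A) := by positivity
    have r3 := mul_le_mul_of_nonneg_right m5 r2
    calc 6 / 5 * s ^ 2 * (D * (D + A)) = s ^ 2 * (6 / 5 * D * (D + A)) := by ring
      _ ≤ Real.sinh s ^ 2 * (6 / 5 * D * (D + A)) := r3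
      _ ≤ Real.sinh s ^ 2 * B := r1
      _ ≤ z.im ^ 2 * D ^ 2 := m3
  have hD2 : 0 < D ^ 2 := by positivity
  have m7 : 6 / 5 * s ^ 2 * (1 + normSq z) ≤ z.im ^ 2 := le_of_mul_le_mul_right m6 hD2
  have nz : 0 < 1 + normSq z := by have := normSq_nonneg z; linarith only [this]
  have m8 : 6 / 5 * s ^ 2 ≤ q ^ 2 := by
    have : 6 / 5 * s ^ 2 * (1 + normSq z) ≤ q ^ 2 * (1 + normSq z) := m7.trans hs
    exact le_of_mul_le_mul_right this nz
  rw [← hsd]
  have m9 : (1095 / 1000 * s) ^ 2 ≤ q ^ 2 := by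
    rw [mul_pow]
    linarith only [m8, sq_nonneg s]
  exact (sq_le_sq₀ (by positivity) q0).1 m9

/-- `arsinh y ≥ y - y³/6`. -/
theorem gain_arsinh {x : ℝ} (hx : 0 ≤ x) : Real.sinh x - Real.sinh x ^ 3 / 6 ≤ x := by
  have hm : MonotoneOn (fun t : ℝ => t - Real.sinh t + Real.sinh t ^ 3 / 6) (Set.Ici 0) := by
    have hder : ∀ t : ℝ, HasDerivAt (fun t : ℝ => t - Real.sinh t + Real.sinh t ^ 3 / 6)
        (1 - Real.cosh t + Real.sinh t ^ 2 * Real.cosh t / 2) t := by
      intro t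
      have h1 := (((hasDerivAt_id t).sub (Real.hasDerivAt_sinh t)).add
        (((Real.hasDerivAt_sinh t).pow 3).div_const 6))
      refine h1.congr_deriv ?_
      norm_num
      ring
    apply monotoneOn_of_deriv_nonneg (convex_Ici 0)
    · intro t _
      exact (hder t).continuousAt.continuousWithinAt
    · intro t _
      exact (hder t).differentiableAt.differentiableWithinAt
    · intro t _
      rw [(hder t).deriv]
      have h1 := Real.one_le_cosh t
      have h2 := Real.sinh_sq t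
      rw [h2]
      have h3 : 0 ≤ (Real.cosh t - 1) * (Real.cosh t * (Real.cosh t + 1) / 2 - 1) := by
        apply mul_nonneg (by linarith only [h1])
        linarith only [h1, mul_nonneg (sub_nonneg.2 h1) (sub_nonneg.2 h1)]
      linarith only [h3]
  have h1 := hm (Set.mem_Ici.2 le_rfl) (Set.mem_Ici.2 hx) hx
  simp only [Real.sinh_zero] at h1
  norm_num at h1
  linarith only [h1]

/-- The height of the `u`-line at the abscissa `13/40`. -/
theorem gain_height (hθ : Ht θ) :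
    14 / 25 * Real.tan θ ≤ 1095 / 1000 * (Real.pi * bl θ (13 / 40)) := by
  have ht : Real.tan θ ^ 2 ≤ 53 / 147 := by linarith only [hθ.tan]
  have q1 := sinh_pi_bl θ (13 / 40)
  have t0 : 0 < Real.tan θ := Real.tan_pos_of_pos_of_lt_pi_div_two hθ.pos hθ.lt
  obtain ⟨p1, p2⟩ := cos_sq_v1
  have c0 : 0 ≤ Real.cos (Real.pi * (13 / 40)) := by
    apply Real.cos_nonneg_of_mem_Icc
    constructor <;> linarith only [Real.pi_pos]
  have c5 : 5213 / 10000 ≤ Real.cos (Real.pi * (13 / 40)) := by (refine le_of_not_gt fun hng => ?_; linarith only [hng,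
                                                                  p1,
                                                                  mul_nonneg (sub_nonneg.2 hng.le) (sub_nonneg.2 c0)])
  have hB : 0 ≤ Real.pi * bl θ (13 / 40) := by
    rw [← Real.sinh_nonneg_iff, q1]
    positivity
  have k := gain_arsinh hB
  rw [q1] at k
  obtain ⟨T, hT⟩ : ∃ T, T = Real.tan θ := ⟨_, rfl⟩
  obtain ⟨c, hc⟩ : ∃ c, c = Real.cos (Real.pi * (13 / 40)) := ⟨_, rfl⟩
  rw [← hT] at k t0 ht ⊢
  rw [← hc] at k p1 p2 c0 c5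
  have e1 : (T * c) ^ 2 ≤ 53 / 147 * (2744 / 10000) := by
    rw [mul_pow]
    exact mul_le_mul ht p2 (by positivity) (by norm_num)
  have e2 : T * (5213 / 10000) ≤ T * c := mul_le_mul_of_nonneg_left c5 t0.le
  have e3 : (T * c) ^ 3 ≤ 990 / 10000 * (T * c) := by
    have : (T * c) ^ 3 = (T * c) ^ 2 * (T * c) := by ring
    rw [this]
    exact mul_le_mul_of_nonneg_right (by linarith only [e1]) (by positivity)
  linarith only [e3, e2, k, t0]

/-- `Re Φ` grows at least by `14/25 tan θ` per unit height on the vertical `re v = 13/40`. -/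
theorem Pr.gain' (hΦ : IsPhi Φ) (h : Pr θ θ' v w) (hv : v.re = 13 / 40)
    (hμ : μ ≤ 14 / 25 * Real.tan θ) : (Φ v ((starRingEnd ℂ) w)).re ≤
      (Φ (up θ v) ((starRingEnd ℂ) w)).re - μ * ((up θ v).im - v.im) := by
  have hpi := Real.pi_pos
  have hR : |Real.pi * v.re| < Real.pi / 2 := by
    have := pi_re_lt h.hv.abs
    rwa [pi_mul_re] at this
  obtain ⟨W, hW⟩ : ∃ W, W = (starRingEnd ℂ) (uof w) := ⟨_, rfl⟩
  obtain ⟨w1, w2, w3, w4, w5⟩ := h.hw.u h.hθ'
  have hm : MonotoneOn (fun s : ℝ => (Φ (gd (igd (UU (Real.pi * v.re) s)) / (Real.pi : ℂ))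
      (gd W / (Real.pi : ℂ))).re - 1095 / 1000 / Real.pi * s ^ 2)
      (Set.Icc (Real.pi * v.im) (Real.pi * bl θ v.re)) := by
    -- data on the segment
    have hd : ∀ s ∈ Set.Icc (Real.pi * v.im) (Real.pi * bl θ v.re),
        1095 / 1000 * s ≤ (qq (igd (UU (Real.pi * v.re) s)) W).im ∧
        Reg (igd (UU (Real.pi * v.re) s)) W := by
      intro s hs
      obtain ⟨b, hb⟩ : ∃ b, s = Real.pi * b := ⟨s / Real.pi, by field_simp⟩
      have hb1 : v.im ≤ b := by
        have := hs.1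
        rw [hb] at this
        exact le_of_mul_le_mul_left this hpi
      have hb2 : b ≤ bl θ v.re := by
        have := hs.2
        rw [hb] at this
        exact le_of_mul_le_mul_left this hpi
      have hz : Pr θ θ' ((v.re : ℂ) + (b : ℂ) * I) w :=
        ⟨⟨by rw [line_re]; exact h.hv.re0, by rw [line_re]; exact h.hv.re1,
          by rw [line_im]; exact h.hv.im0.trans hb1, by rw [line_re, line_im]; exact hb2⟩,
          h.hw, h.hθ, h.hθ', h.S⟩
      have hq := hz.qo
      have hk := hz.im_qq_ge (by rw [line_re]; exact hv)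
      rw [line_im, uof_line, ← hb, ← hW] at hk
      rw [uof_line, ← hb, ← hW] at hq
      exact ⟨hk, hq.reg⟩
    have hder : ∀ s ∈ Set.Icc (Real.pi * v.im) (Real.pi * bl θ v.re),
        HasDerivAt (fun s : ℝ => (Φ (gd (igd (UU (Real.pi * v.re) s)) / (Real.pi : ℂ))
          (gd W / (Real.pi : ℂ))).re - 1095 / 1000 / Real.pi * s ^ 2)
          (2 / Real.pi * (qq (igd (UU (Real.pi * v.re) s)) W).im -
            1095 / 1000 / Real.pi * (2 * s)) s := by
      intro s hs
      obtain ⟨_, hr⟩ := hd s hs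
      have h1 := hΦ.deriv (fun s => igd (UU (Real.pi * v.re) s)) (fun _ => W) _ 0 s hr
        (hasDerivAt_igd_line hR s) (hasDerivAt_const _ _)
      have h2 := hasDerivAt_re h1
      have h3 : HasDerivAt (fun s : ℝ => 1095 / 1000 / Real.pi * s ^ 2)
          (1095 / 1000 / Real.pi * (2 * s)) s := by
        have := (hasDerivAt_pow 2 s).const_mul (1095 / 1000 / Real.pi)
        refine this.congr_deriv ?_
        norm_num
      refine (h2.sub h3).congr_deriv ?_
      congr 1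
      have hc := cosh_ne hr.left
      have hpi' : (Real.pi : ℂ) ≠ 0 := by exact_mod_cast Real.pi_ne_zero
      have e : (-2 * qq (igd (UU (Real.pi * v.re) s)) W * (I * cosh (igd (UU (Real.pi * v.re) s))) /
          ((Real.pi : ℂ) * cosh (igd (UU (Real.pi * v.re) s))) -
          2 * qq W (igd (UU (Real.pi * v.re) s)) * 0 / ((Real.pi : ℂ) * cosh W)) =
          ((2 / Real.pi : ℝ) : ℂ) * (-I * qq (igd (UU (Real.pi * v.re) s)) W) := by
        push_cast
        field_simp
        ring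
      rw [e, re_ofReal_mul]
      congr 1
      rw [mul_re, neg_re, neg_im, I_re, I_im]
      ring
    apply monotoneOn_of_deriv_nonneg (convex_Icc _ _)
    · intro s hs
      exact (hder s hs).continuousAt.continuousWithinAt
    · intro s hs
      rw [interior_Icc] at hs
      exact (hder s (Set.Ioo_subset_Icc_self hs)).differentiableAt.differentiableWithinAt
    · intro s hs
      rw [interior_Icc] at hs
      have hs' := Set.Ioo_subset_Icc_self hs
      rw [(hder s hs').deriv]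
      obtain ⟨g1, g3⟩ := hd s hs'
      have e : 2 / Real.pi * (qq (igd (UU (Real.pi * v.re) s)) W).im -
          1095 / 1000 / Real.pi * (2 * s) =
          2 / Real.pi * ((qq (igd (UU (Real.pi * v.re) s)) W).im - 1095 / 1000 * s) := by ring
      rw [e]
      exact mul_nonneg (by positivity) (by linarith only [g1])
  have hle : Real.pi * v.im ≤ Real.pi * bl θ v.re := mul_le_mul_of_nonneg_left h.hv.im1 hpi.le
  have k := hm ⟨le_rfl, hle⟩ ⟨hle, le_rfl⟩ hle
  simp only at k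
  rw [← uof_line, ← uof_line, re_add_im, hW, ← h.hw.conj_u] at k
  have hcw : |((starRingEnd ℂ) w).re| < 1 / 2 := conj_abs h.hw.abs
  rw [Phi_eq_gd Φ h.hv.abs hcw, Phi_eq_gd Φ (v := S3.up θ v) (by rw [up_re]; exact h.hv.abs) hcw]
  rw [up_im]
  -- the height of the line
  have hs0 := gain_height h.hθ
  rw [← hv] at hs0
  obtain ⟨B, hB⟩ : ∃ B, B = bl θ v.re := ⟨_, rfl⟩
  have e1 : up θ v = (v.re : ℂ) + ((bl θ v.re : ℝ) : ℂ) * I := rfl
  rw [← e1] at k
  rw [← hB] at k hle hs0 ⊢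
  have k3 : 1095 / 1000 / Real.pi * ((Real.pi * B) ^ 2 - (Real.pi * v.im) ^ 2) =
      1095 / 1000 * ((B - v.im) * (Real.pi * B + Real.pi * v.im)) := by
    field_simp
    ring
  have k4 : μ * (B - v.im) ≤ 1095 / 1000 * ((B - v.im) * (Real.pi * B + Real.pi * v.im)) := by
    have d0 : 0 ≤ B - v.im := by
      have := le_of_mul_le_mul_left hle hpi
      linarith only [this]
    have d1 : 0 ≤ Real.pi * v.im := mul_nonneg hpi.le h.hv.im0
    have d2 := Real.pi_lt_d4
    have d3 : μ ≤ 1095 / 1000 * (Real.pi * B + Real.pi * v.im) := by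
      linarith only [d1, hs0, hμ]
    have := mul_le_mul_of_nonneg_right d3 d0
    linarith only [this]
  have k5 : 1095 / 1000 / Real.pi * (Real.pi * B) ^ 2 -
      1095 / 1000 / Real.pi * (Real.pi * v.im) ^ 2 =
      1095 / 1000 / Real.pi * ((Real.pi * B) ^ 2 - (Real.pi * v.im) ^ 2) := by ring
  linarith only [k4, k3, k]

/-- `Re Φ` grows at least by `π / 20` per unit height on the vertical `re v = 13/40`. -/
theorem Pr.gain (hΦ : IsPhi Φ) (h : Pr θ θ' v w) (hv : v.re = 13 / 40) (h0 : 7 / 25 ≤ θ)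
    (hμ : μ ≤ Real.pi / 20) : (Φ v ((starRingEnd ℂ) w)).re ≤
      (Φ (up θ v) ((starRingEnd ℂ) w)).re - μ * ((up θ v).im - v.im) := by
  refine h.gain' hΦ hv (hμ.trans ?_)
  have d2 := Real.pi_lt_d4
  have t1 : Real.tan (7 / 25) ≤ Real.tan θ := by
    rcases h0.eq_or_lt with e | e
    · rw [e]
    · exact (Real.tan_lt_tan_of_nonneg_of_lt_pi_div_two (by norm_num) h.hθ.lt e).le
  have s1 := Real.sin_bound (x := 7 / 25) (by norm_num [abs_of_pos])
  have s2 := Real.cos_bound (x := 7 / 25) (by norm_num [abs_of_pos])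
  rw [abs_le] at s1 s2
  norm_num [abs_of_pos] at s1 s2
  have c0 : 0 < Real.cos (7 / 25) := by linarith only [s2.1]
  have t2 : 2806 / 10000 ≤ Real.tan (7 / 25) := by
    rw [Real.tan_eq_sin_div_cos, le_div_iff₀ c0]
    linarith only [s2.2, s1.1]
  linarith only [t2, t1, d2]

/-- The gain on the vertical of the first vertex. -/
theorem gainL_of' (hΦ : IsPhi Φ) (hμ : μ ≤ 14 / 25 * Real.tan θ) :
    GainL Φ θ θ' (13 / 40) v1' μ := fun _ _ h hv _ => h.gain' hΦ hv hμ

/-- The gain on the vertical of the second vertex. -/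
theorem gainR_of' (hΦ : IsPhi Φ) (hμ : μ' ≤ 14 / 25 * Real.tan θ') :
    GainR Φ θ θ' v1 (13 / 40) μ' := by
  intro v w h _ hw
  have k := h.symm.gain' hΦ.swap hw hμ
  have h1 : Pr θ θ' v (up θ' w) := ⟨h.hv, h.hw.up h.hθ', h.hθ, h.hθ', h.S⟩
  rwa [Phi_conj hΦ h, Phi_conj hΦ h1] at k

/-- The gain on the vertical of the first vertex. -/
theorem gainL_of (hΦ : IsPhi Φ) (h0 : 7 / 25 ≤ θ) (hμ : μ ≤ Real.pi / 20) :
    GainL Φ θ θ' (13 / 40) v1' μ := fun _ _ h hv _ => h.gain hΦ hv h0 hμ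

/-- The gain on the vertical of the second vertex. -/
theorem gainR_of (hΦ : IsPhi Φ) (h0 : 7 / 25 ≤ θ') (hμ : μ' ≤ Real.pi / 20) :
    GainR Φ θ θ' v1 (13 / 40) μ' := by
  intro v w h _ hw
  have k := h.symm.gain hΦ.swap hw h0 hμ
  have h1 : Pr θ θ' v (up θ' w) := ⟨h.hv, h.hw.up h.hθ', h.hθ, h.hθ', h.S⟩
  rwa [Phi_conj hΦ h, Phi_conj hΦ h1] at k

/-- No gain is needed for a nonpositive slope. -/
theorem gainL_nonpos (hΦ : IsPhi Φ) (hμ : μ ≤ 0) : GainL Φ θ θ' v1 v1' μ := by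
  intro v w h _ _
  have h1 := h.vert_left hΦ
  have h2 : 0 ≤ (up θ v).im - v.im := by
    rw [up_im]; linarith only [h.hv.im1]
  have h3 := mul_nonneg (neg_nonneg.2 hμ) h2
  linarith only [h3, h1]

theorem gainR_nonpos (hΦ : IsPhi Φ) (hμ : μ' ≤ 0) : GainR Φ θ θ' v1 v1' μ' := by
  intro v w h _ _
  have h1 := h.symm.vert_left hΦ.swap
  have h5 : Pr θ θ' v (up θ' w) := ⟨h.hv, h.hw.up h.hθ', h.hθ, h.hθ', h.S⟩
  rw [Phi_conj hΦ h, Phi_conj hΦ h5] at h1
  have h2 : 0 ≤ (up θ' w).im - w.im := by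
    rw [up_im]; linarith only [h.hw.im1]
  have h3 := mul_nonneg (neg_nonneg.2 hμ) h2
  linarith only [h3, h1]

end

end Pool.Agent.S3
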