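import Pool.Agent.S3.W.Cfg
import Pool.Agent.S3.W.FlatW
import Pool.Agent.S3.W.Gain
import Pool.Agent.S3.Cl.CfgE

/-!
# The estimates of the edges of a chain
-/

set_option autoImplicit false

namespace Pool.Agent.S3

open Complex
open Pool.Agent.H63.VC7 (inc)
open Pool.Agent.S3.E
open Pool.Agent.H25.RK (gdv gdv_re_lt gdv_hasDerivAt ul)

variable {m : ℕ} {a : Fin (m + 1) → ℕ} {σ : Fin (m + 1) → ℤ} {z : Fin (m + 1) → ℂ}

/-- The data at every open-open edge. -/
def OODall (a : Fin (m + 1) → ℕ) (σ : Fin (m + 1) → ℤ) (z : Fin (m + 1) → ℂ) (Φ : ℂ → ℂ → ℂ)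
    (v1 : Fin (m + 1) → ℝ) : Prop := ∀ n p : Fin (m + 1), (chL n = some p ∨ chR n = some p) →
  ¬ clo a n → ¬ clo a p → σ n = -1 → σ p = 1 →
    OOD Φ (z n) (z p) (a n) (a p) (v1 n) (v1 p)

/-- The estimates of the edges from the data. -/
theorem edg_of {Φ : ℂ → ℂ → ℂ} (hΦ : IsPhi Φ) (h0 : Φ 0 0 = c00)
    (h : Zr (fun i => (a i : ℝ)) chL chR 1 z) (ha : ∀ i, 2 ≤ a i)
    (hσ : ∀ i, σ i = 1 ∨ σ i = -1) (hs : ∀ j : Fin m, σ j.succ = -σ j.castSucc)
    (h2 : ∀ j : Fin m, ¬ (clo a j.castSucc ∧ clo a j.succ))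
    {v1 : Fin (m + 1) → ℝ} (hv1 : ∀ i, V1 (v1 i))
    (hvx : ∀ i, ¬ clo a i → (z i).re / Real.pi < v1 i)
    (hD : OODall a σ z Φ v1)
    (hV : ∀ i k : Fin (m + 1), (chL i = some k ∨ chR i = some k) → ¬ clo a i → clo a k →
      Cl.VOK (a i) (bw (z i) (z k)) (v1 i) (bw (z i) (z k) / a i)) :
    (cfgOf a σ z).Edg v1 (lamC a z) where
  v0 := fun i _ => (hv1 i).pos
  vh := fun i _ => by linarith [(hv1 i).le]
  vx := fun i hi => by
    have h1 := hvx i (mem_Op.1 hi)
    have h3 := abs_th_lt (h.pos i).1 (h.pos i).2.1 (h.pos i).2.2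
    have h4 : 0 < (z i).re / Real.pi := div_pos (h.pos i).1 Real.pi_pos
    rcases hσ i with s | s
    · rw [vcC_pos h3 s, mir_re, abs_neg, gdv_re_eq h, abs_of_pos h4]; exact h1
    · rw [vcC_neg s, gdv_re_eq h, abs_of_pos h4]; exact h1
  lam1 := fun i _ => lamC_sum h ha i
  far := by
    intro j v w hv hw hne
    have e1 : lamC a z j j.castSucc = bw (z j.castSucc) (z j.succ) / a j.castSucc := by
      rw [lamC, oth_cs]
    have e2 : lamC a z j j.succ = bw (z j.succ) (z j.castSucc) / a j.succ := by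
      rw [lamC, oth_su]
    by_cases hc : clo a j.castSucc ∨ clo a j.succ
    · refine Cl.far h ha hσ hs h2 hc ?_ ?_ v w hv hw hne
      · intro c1
        rw [e1]
        rcases hc with hc | hc
        · exact absurd hc c1
        · exact hV _ _ (Or.inr (chR_castSucc j)) c1 hc
      · intro c2
        rw [e2]
        rcases hc with hc | hc
        · exact hV _ _ (Or.inl (chL_succ j)) c2 hc
        · exact absurd hc c2
    · rw [not_or] at hc
      obtain ⟨c1, c2⟩ := hc
      have hne' : v ≠ (cfgOf a σ z).vc j.castSucc ∨ w ≠ (cfgOf a σ z).vc j.succ := by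
        rcases hne with h | h
        · exact Or.inl h.2
        · exact Or.inr h.2
      refine far_oo hΦ h0 h ha hv1 (edC h ha hσ hs h2 j) c1 c2 ?_ (hv (mem_Op.2 c1))
        (hw (mem_Op.2 c2)) hne'
      rcases hσ j.castSucc with s | s
      · right
        have s2 : σ j.succ = -1 := by rw [hs, s]
        exact ⟨s, s2, hD _ _ (Or.inl (chL_succ j)) c2 c1 s2 s⟩
      · left
        have s2 : σ j.succ = 1 := by rw [hs, s]; rfl
        exact ⟨s, s2, hD _ _ (Or.inr (chR_castSucc j)) c1 c2 s s2⟩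
  near := by
    intro j
    by_cases hc : clo a j.castSucc ∨ clo a j.succ
    · refine Cl.near h hσ hs h2 hc ?_ ?_
      · intro c1
        rcases hc with hc | hc
        · exact absurd hc c1
        · exact (hV _ _ (Or.inr (chR_castSucc j)) c1 hc).a3
      · intro c2
        rcases hc with hc | hc
        · exact (hV _ _ (Or.inl (chL_succ j)) c2 hc).a3
        · exact absurd hc c2
    · rw [not_or] at hc
      obtain ⟨c1, c2⟩ := hc
      refine near_oo hΦ h0 h hv1 c1 c2 ?_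
      rcases hσ j.castSucc with s | s
      · right
        have s2 : σ j.succ = -1 := by rw [hs, s]
        exact ⟨s, s2, hD _ _ (Or.inl (chL_succ j)) c2 c1 s2 s⟩
      · left
        have s2 : σ j.succ = 1 := by rw [hs, s]; rfl
        exact ⟨s, s2, hD _ _ (Or.inr (chR_castSucc j)) c1 c2 s s2⟩

/-! ### At least three twists at every open vertex: `v1 = 13 / 40` -/

theorem bw_le (h : Zr (fun i => (a i : ℝ)) chL chR 1 z) {i k : Fin (m + 1)}
    (hik : chL i = some k ∨ chR i = some k) : bw (z i) (z k) ≤ a i := by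
  have hsum := h.sum_bwo i
  have hn : ∀ o, (chL i = o ∨ chR i = o) → 0 ≤ bwo z i o := by
    intro o ho
    cases o with
    | none => exact le_rfl
    | some l => exact (h.bw_pos ho).le
  have p1 := hn _ (Or.inl rfl)
  have p2 := hn _ (Or.inr rfl)
  rcases hik with e | e
  · rw [e] at hsum p1
    have : bwo z i (some k) = bw (z i) (z k) := rfl
    rw [this] at hsum
    linarith
  · rw [e] at hsum p2
    have : bwo z i (some k) = bw (z i) (z k) := rfl
    rw [this] at hsum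
    linarith

theorem V1_t : V1 (13 / 40) := ⟨by norm_num, by norm_num⟩

theorem Ht_of {θ : ℝ} (h0 : 0 < θ) (h1 : θ ≤ 27 / 50) : Ht θ := by
  have := tan_sq_le_of h0.le h1
  exact ⟨h0, by linarith [Real.pi_gt_three], by linarith⟩

/-- The slope of the share for `v1 = 13 / 40`. -/
theorem mu_le {b : ℝ} {α : ℕ} (h3 : 3 ≤ α) (hb : 0 < b) (hb' : b ≤ α) :
    mu b α (13 / 40) ≤ Real.pi / 20 := by
  have hpi := Real.pi_pos
  have ha : (3 : ℝ) ≤ α := by exact_mod_cast h3
  have h1 : 0 < b / α := by positivity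
  have h2 : b / α ≤ 1 := by rw [div_le_one (by linarith)]; exact hb'
  unfold mu
  have h3 : 2 * Real.pi * (1 - α * (13 / 40)) ≤ Real.pi / 20 := by nlinarith
  rcases le_total 0 (2 * Real.pi * (1 - α * (13 / 40))) with h4 | h4
  · have := mul_le_mul h2 h3 h4 zero_le_one
    linarith
  · have := mul_nonpos_of_nonneg_of_nonpos h1.le h4
    linarith

theorem mu_nonpos {b : ℝ} {α : ℕ} (h3 : 4 ≤ α) (hb : 0 < b) :
    mu b α (13 / 40) ≤ 0 := by
  have hpi := Real.pi_pos
  have ha : (4 : ℝ) ≤ α := by exact_mod_cast h3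
  have h1 : 0 < b / α := by positivity
  unfold mu
  apply mul_nonpos_of_nonneg_of_nonpos h1.le
  nlinarith

/-- **The estimates of the edges of a chain with at least three twists at every open vertex.** -/
theorem edg_t1 {Φ : ℂ → ℂ → ℂ} (hΦ : IsPhi Φ) (h0 : Φ 0 0 = c00)
    (h : Zr (fun i => (a i : ℝ)) chL chR 1 z) (ha : ∀ i, 2 ≤ a i)
    (hσ : ∀ i, σ i = 1 ∨ σ i = -1) (hs : ∀ j : Fin m, σ j.succ = -σ j.castSucc)
    (h2 : ∀ j : Fin m, ¬ (clo a j.castSucc ∧ clo a j.succ))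
    (h3 : ∀ i, ¬ clo a i → 3 ≤ a i)
    (hR : ∀ i, ¬ clo a i → (z i).re / Real.pi < 13 / 40)
    (hT : ∀ n p : Fin (m + 1), (chL n = some p ∨ chR n = some p) → ¬ clo a n → ¬ clo a p →
      th (z n).re (z n).im ≤ 27 / 50)
    (hE : ∀ n p : Fin (m + 1), (chL n = some p ∨ chR n = some p) → ¬ clo a n → ¬ clo a p →
      EndAll Φ (th (z n).re (z n).im) (th (z p).re (z p).im) (xx (z n).re (z n).im)
        (xx (z p).re (z p).im) (bw (z n) (z p)) (bw (z p) (z n)) (13 / 40) (13 / 40)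
        (mu (bw (z n) (z p)) (a n) (13 / 40)) (mu (bw (z p) (z n)) (a p) (13 / 40)))
    (hG : ∀ n p : Fin (m + 1), (chL n = some p ∨ chR n = some p) → ¬ clo a n → ¬ clo a p →
      a n = 3 → 7 / 25 ≤ th (z n).re (z n).im) :
    (cfgOf a σ z).Edg (fun _ => 13 / 40) (lamC a z) := by
  refine edg_of hΦ h0 h ha hσ hs h2 (fun _ => V1_t) hR ?_ ?_
  · intro n p hnp cn cp _ _
    have tn := Ht_of (h.thpos n) (hT n p hnp cn cp)
    have tp := Ht_of (h.thpos p) (hT p n (h.N.symm n p hnp) cp cn)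
    have K : OO Φ (th (z n).re (z n).im) (th (z p).re (z p).im) (xx (z n).re (z n).im)
        (xx (z p).re (z p).im) (bw (z n) (z p)) (bw (z p) (z n)) (13 / 40) (13 / 40) :=
      ⟨hΦ, h0, h.oppHyp hnp, h.split hnp, h.xxpos n, h.xxpos p, tn, tp, V1_t, V1_t,
        by rw [gdv_re_eq h]; exact hR n cn, by rw [gdv_re_eq h]; exact hR p cp⟩
    refine ⟨tn, tp, hR n cn, hR p cp, flatAll_of tn tp K.ho.S le_rfl le_rfl,
      flatC_of K le_rfl le_rfl, hE n p hnp cn cp, ?_, ?_⟩
    · rcases (h3 n cn).eq_or_lt with e | e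
      · exact gainL_of hΦ (hG n p hnp cn cp e.symm) (mu_le (h3 n cn) (h.bw_pos hnp) (bw_le h hnp))
      · exact gainL_nonpos hΦ (mu_nonpos e (h.bw_pos hnp))
    · have hpn := h.N.symm n p hnp
      rcases (h3 p cp).eq_or_lt with e | e
      · exact gainR_of hΦ (hG p n hpn cp cn e.symm) (mu_le (h3 p cp) (h.bw_pos hpn) (bw_le h hpn))
      · exact gainR_nonpos hΦ (mu_nonpos e (h.bw_pos hpn))
  · intro i k hik ci _
    exact Cl.vok h hik (h3 i ci) (by norm_num) (by norm_num)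

end Pool.Agent.S3
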