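import Pool.Agent.S3.Edge
import Pool.Agent.S3.HeLog
import Pool.Agent.S3.Refl

/-!
# Open-open edges: the core of the contour

Coordinates on the part of the limit contour in the first quadrant: `π v = gd u`, `u = x + i t` with
`0 ≤ t ≤ θ`, `tan t = sinh (π im v) / cos (π re v)`, `tanh x = sin (π re v) / cosh (π im v)`.
-/

set_option autoImplicit false

namespace Pool.Agent.S3

open Complex
open Pool.Agent.H25.RK (gdv gdv_re_lt gdv_hasDerivAt)

/-- The first quadrant part of the limit contour without the real segment. -/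
def Core (θ v1 : ℝ) : Set ℂ :=
  {v | (0 ≤ v.re ∧ v.re ≤ v1 ∧ v.im = bl θ v.re) ∨ (v.re = v1 ∧ 0 ≤ v.im ∧ v.im ≤ bl θ v1)}

/-- The condition of the flat theorem. -/
def C2 (v w : ℂ) : Prop :=
  0 ≤ (1 / cos (Real.pi * v) ^ 2 + 1 / cos (Real.pi * w) ^ 2 - 1).re ∧
    ‖1 / cos (Real.pi * v) ^ 2 - 1 / cos (Real.pi * w) ^ 2‖ ^ 2 *
        ‖1 / cos (Real.pi * v) ^ 2 + 1 / cos (Real.pi * w) ^ 2 - 1‖ ≤
      4 * (‖1 / cos (Real.pi * v) ^ 2‖ * ‖1 / cos (Real.pi * w) ^ 2‖) *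
        (1 / cos (Real.pi * v) ^ 2 + 1 / cos (Real.pi * w) ^ 2 - 1).re

/-- `D_e` at a pair `v`, `w` with `w` in the lower half plane. -/
noncomputable def Dvw (Φ : ℂ → ℂ → ℂ) (θ θ' b b' xc xc' : ℝ) (v w : ℂ) : ℝ :=
  (Φ v w - Φ (gdv (UU xc θ)) (gdv (UU xc' (-θ')))
    + 2 * qq (UU xc θ) (UU xc' (-θ')) * (v - gdv (UU xc θ))
    + 2 * qq (UU xc' (-θ')) (UU xc θ) * (w - gdv (UU xc' (-θ')))
    - I * Real.pi * b * (v - gdv (UU xc θ)) ^ 2
    + I * Real.pi * b' * (w - gdv (UU xc' (-θ'))) ^ 2).re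

/-- The inequality at the lower ends of the verticals. -/
structure Bot (Φ : ℂ → ℂ → ℂ) (θ θ' b b' xc xc' v1 v1' : ℝ) : Prop where
  left : ∀ x' : ℝ, 0 ≤ x' → (gdv (UU x' (-θ'))).re ≤ v1' →
    Dvw Φ θ θ' b b' xc xc' v1 (gdv (UU x' (-θ'))) < 0
  right : ∀ x : ℝ, 0 ≤ x → (gdv (UU x θ)).re ≤ v1 →
    Dvw Φ θ θ' b b' xc xc' (gdv (UU x θ)) v1' < 0
  both : Dvw Φ θ θ' b b' xc xc' v1 v1' < 0

/-! ### Coordinates -/

theorem wcos_re (P : ℂ) : (cos P).re = Real.cos P.re * Real.cosh P.im := by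
  conv_lhs => rw [← re_add_im P]
  rw [Complex.cos_add, Complex.cos_mul_I, Complex.sin_mul_I]
  simp [← Complex.ofReal_cosh, ← Complex.ofReal_cos, ← Complex.ofReal_sinh, ← Complex.ofReal_sin]

theorem wcos_im (P : ℂ) : (cos P).im = -(Real.sin P.re * Real.sinh P.im) := by
  conv_lhs => rw [← re_add_im P]
  rw [Complex.cos_add, Complex.cos_mul_I, Complex.sin_mul_I]
  simp [← Complex.ofReal_cosh, ← Complex.ofReal_cos, ← Complex.ofReal_sinh, ← Complex.ofReal_sin]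

theorem wsin_re (P : ℂ) : (sin P).re = Real.sin P.re * Real.cosh P.im := by
  conv_lhs => rw [← re_add_im P]
  rw [Complex.sin_add, Complex.cos_mul_I, Complex.sin_mul_I]
  simp [← Complex.ofReal_cosh, ← Complex.ofReal_cos, ← Complex.ofReal_sinh, ← Complex.ofReal_sin]

theorem wsin_im (P : ℂ) : (sin P).im = Real.cos P.re * Real.sinh P.im := by
  conv_lhs => rw [← re_add_im P]
  rw [Complex.sin_add, Complex.cos_mul_I, Complex.sin_mul_I]
  simp [← Complex.ofReal_cosh, ← Complex.ofReal_cos, ← Complex.ofReal_sinh, ← Complex.ofReal_sin]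

theorem tan_igd_im {P : ℂ} (h : |P.re| < Real.pi / 2) :
    Real.tan (igd P).im = Real.sinh P.im / Real.cos P.re := by
  have hc := cos_ne' h
  have hR : 0 < Real.cos P.re := cos_pos' h
  have h1 : sinh (igd P) = sin P * cosh (igd P) := by
    rw [sinh_igd, cosh_igd h, Complex.tan_eq_sin_div_cos, mul_one_div]
  have h2 : cos P * cosh (igd P) = 1 := by
    rw [cosh_igd h]; field_simp
  have h3 := congrArg Complex.im h1
  have h4 := congrArg Complex.im h2
  rw [mul_im, wsin_re, wsin_im] at h3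
  rw [mul_im, wcos_re, wcos_im, one_im] at h4
  have hp := cosh_re_pos (igd_im_lt h)
  rw [sinh_im', cosh_re', cosh_im'] at h3
  rw [cosh_re', cosh_im'] at h4
  rw [cosh_re'] at hp
  have hct : 0 < Real.cos (igd P).im := cos_pos' (igd_im_lt h)
  have hch := Real.cosh_pos (igd P).re
  have hs := Real.sin_sq_add_cos_sq P.re
  rw [Real.tan_eq_sin_div_cos, div_eq_div_iff hct.ne' hR.ne']
  have e : Real.cosh (igd P).re * (Real.sin (igd P).im * Real.cos P.re) =
      Real.cosh (igd P).re * (Real.sinh P.im * Real.cos (igd P).im) := by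
    linear_combination Real.cos P.re * h3 + Real.sin P.re * h4 +
      (Real.sinh P.im * (Real.cosh (igd P).re * Real.cos (igd P).im)) * hs
  exact mul_left_cancel₀ hch.ne' e

theorem tanh_igd_re {P : ℂ} (h : |P.re| < Real.pi / 2) :
    Real.tanh (igd P).re = Real.sin P.re / Real.cosh P.im := by
  have hc := cos_ne' h
  have hR : 0 < Real.cos P.re := cos_pos' h
  have h1 : sinh (igd P) = sin P * cosh (igd P) := by
    rw [sinh_igd, cosh_igd h, Complex.tan_eq_sin_div_cos, mul_one_div]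
  have h2 : cos P * cosh (igd P) = 1 := by
    rw [cosh_igd h]; field_simp
  have h3 := congrArg Complex.re h1
  have h4 := congrArg Complex.im h2
  rw [mul_re, wsin_re, wsin_im] at h3
  rw [mul_im, wcos_re, wcos_im, one_im] at h4
  rw [sinh_re', cosh_re', cosh_im'] at h3
  rw [cosh_re', cosh_im'] at h4
  have hct : 0 < Real.cos (igd P).im := cos_pos' (igd_im_lt h)
  have hch := Real.cosh_pos (igd P).re
  have hη := Real.cosh_pos P.im
  have hs := Real.cosh_sq P.im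
  rw [Real.tanh_eq_sinh_div_cosh, div_eq_div_iff hch.ne' hη.ne']
  have e : Real.cos (igd P).im * (Real.sinh (igd P).re * Real.cosh P.im) =
      Real.cos (igd P).im * (Real.sin P.re * Real.cosh (igd P).re) := by
    linear_combination Real.cosh P.im * h3 - Real.sinh P.im * h4 +
      (Real.sin P.re * (Real.cosh (igd P).re * Real.cos (igd P).im)) * hs
  exact mul_left_cancel₀ hct.ne' e

theorem pi_mul_re (v : ℂ) : ((Real.pi : ℂ) * v).re = Real.pi * v.re := re_ofReal_mul _ _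

theorem pi_mul_im (v : ℂ) : ((Real.pi : ℂ) * v).im = Real.pi * v.im := im_ofReal_mul _ _

theorem pi_re_lt {v : ℂ} (h : |v.re| < 1 / 2) : |((Real.pi : ℂ) * v).re| < Real.pi / 2 := by
  rw [pi_mul_re, abs_mul, abs_of_pos Real.pi_pos]
  nlinarith [Real.pi_pos]

/-- The coordinate of `v`. -/
noncomputable def uof (v : ℂ) : ℂ := igd (Real.pi * v)

theorem uof_im_lt {v : ℂ} (h : |v.re| < 1 / 2) : |(uof v).im| < Real.pi / 2 :=
  igd_im_lt (pi_re_lt h)

theorem gdv_uof {v : ℂ} (h : |v.re| < 1 / 2) : gdv (uof v) = v := by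
  have h1 := gd_eq (uof_im_lt h)
  rw [uof, gd_igd (pi_re_lt h)] at h1
  have hpi : (Real.pi : ℂ) ≠ 0 := by exact_mod_cast Real.pi_ne_zero
  exact (mul_left_cancel₀ hpi h1).symm

theorem uof_gdv {u : ℂ} (h : |u.im| < Real.pi / 2) : uof (gdv u) = u := by
  rw [uof, ← gd_eq h, igd_gd h]

theorem gdv_eq_gd {u : ℂ} (h : |u.im| < Real.pi / 2) : gdv u = gd u / (Real.pi : ℂ) := by
  have hpi : (Real.pi : ℂ) ≠ 0 := by exact_mod_cast Real.pi_ne_zero
  rw [gd_eq h, mul_div_cancel_left₀ _ hpi]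

theorem tan_uof_im {v : ℂ} (h : |v.re| < 1 / 2) :
    Real.tan (uof v).im = Real.sinh (Real.pi * v.im) / Real.cos (Real.pi * v.re) := by
  have := tan_igd_im (pi_re_lt h)
  rwa [pi_mul_re, pi_mul_im] at this

theorem tanh_uof_re {v : ℂ} (h : |v.re| < 1 / 2) :
    Real.tanh (uof v).re = Real.sin (Real.pi * v.re) / Real.cosh (Real.pi * v.im) := by
  have := tanh_igd_re (pi_re_lt h)
  rwa [pi_mul_re, pi_mul_im] at this

theorem cos_pi_pos {a : ℝ} (h : |a| < 1 / 2) : 0 < Real.cos (Real.pi * a) := by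
  apply cos_pos'
  rw [abs_mul, abs_of_pos Real.pi_pos]
  nlinarith [Real.pi_pos]

theorem sinh_pi_bl (θ a : ℝ) : Real.sinh (Real.pi * bl θ a) = Real.tan θ * Real.cos (Real.pi * a) := by
  unfold bl
  rw [mul_div_cancel₀ _ Real.pi_ne_zero, Real.sinh_arsinh]

theorem im_eq_bl {v : ℂ} {t : ℝ} (h : |v.re| < 1 / 2) (ht : (uof v).im = t) :
    v.im = bl t v.re := by
  have h1 := tan_uof_im h
  have hc := cos_pi_pos h
  rw [ht, eq_div_iff hc.ne', ← sinh_pi_bl] at h1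
  have := Real.sinh_injective h1
  have h2 := mul_left_cancel₀ Real.pi_ne_zero this
  exact h2.symm

theorem uof_im_of_bl {v : ℂ} {t : ℝ} (h : |v.re| < 1 / 2) (ht : |t| < Real.pi / 2)
    (hv : v.im = bl t v.re) : (uof v).im = t := by
  have h1 := tan_uof_im h
  have hc := cos_pi_pos h
  rw [hv, sinh_pi_bl, mul_div_cancel_right₀ _ hc.ne'] at h1
  have h2 := uof_im_lt h
  have a1 := abs_lt.1 h2
  have a2 := abs_lt.1 ht
  exact Real.injOn_tan ⟨a1.1, a1.2⟩ ⟨a2.1, a2.2⟩ h1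

theorem uof_im_nonneg {v : ℂ} (h : |v.re| < 1 / 2) (hv : 0 ≤ v.im) : 0 ≤ (uof v).im := by
  have h1 := tan_uof_im h
  have hc := cos_pi_pos h
  have h2 : 0 ≤ Real.tan (uof v).im := by
    rw [h1]
    exact div_nonneg (Real.sinh_nonneg_iff.2 (mul_nonneg Real.pi_pos.le hv)) hc.le
  by_contra h0
  push Not at h0
  have := Real.tan_neg_of_neg_of_pi_div_two_lt h0 (abs_lt.1 (uof_im_lt h)).1
  linarith

theorem uof_im_le {v : ℂ} {t : ℝ} (h : |v.re| < 1 / 2) (ht : |t| < Real.pi / 2)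
    (hv : v.im ≤ bl t v.re) : (uof v).im ≤ t := by
  have h1 := tan_uof_im h
  have hc := cos_pi_pos h
  have h2 : Real.tan (uof v).im ≤ Real.tan t := by
    rw [h1, div_le_iff₀ hc, ← sinh_pi_bl]
    exact Real.sinh_le_sinh.2 (mul_le_mul_of_nonneg_left hv Real.pi_pos.le)
  by_contra h0
  push Not at h0
  have a1 := abs_lt.1 (uof_im_lt h)
  have a2 := abs_lt.1 ht
  have := Real.tan_lt_tan_of_lt_of_lt_pi_div_two a2.1 a1.2 h0
  linarith

theorem uof_re_nonneg {v : ℂ} (h : |v.re| < 1 / 2) (hv : 0 ≤ v.re) : 0 ≤ (uof v).re := by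
  have := igd_re_nonneg (R := Real.pi * v.re) (mul_nonneg Real.pi_pos.le hv)
    (by nlinarith [Real.pi_pos, (abs_lt.1 h).2]) (Real.pi * v.im)
  have e : UU (Real.pi * v.re) (Real.pi * v.im) = (Real.pi : ℂ) * v := by
    rw [← pi_mul_re, ← pi_mul_im, UU_eta]
  rwa [e] at this

/-- On the `u`-line. -/
theorem line_im_bl {x t : ℝ} (h : |t| < Real.pi / 2) :
    (gdv (UU x t)).im = bl t (gdv (UU x t)).re := by
  have h' : |(UU x t).im| < Real.pi / 2 := by rwa [UU_im]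
  apply im_eq_bl (gdv_re_lt h')
  rw [uof_gdv h', UU_im]

theorem line_exists {v : ℂ} {t : ℝ} (h : |v.re| < 1 / 2) (ht : |t| < Real.pi / 2)
    (hv : v.im = bl t v.re) : v = gdv (UU (uof v).re t) := by
  have h1 := uof_im_of_bl h ht hv
  have h2 : UU (uof v).re t = uof v := by
    rw [← h1, UU_eta]
  rw [h2, gdv_uof h]

/-! ### The core -/

theorem bl_nonneg {θ a : ℝ} (h0 : 0 ≤ θ) (h1 : θ < Real.pi / 2) (ha : |a| ≤ 1 / 2) :
    0 ≤ bl θ a := by
  unfold bl
  apply div_nonneg _ Real.pi_pos.le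
  rw [Real.arsinh_nonneg_iff]
  apply mul_nonneg (Real.tan_nonneg_of_nonneg_of_le_pi_div_two h0 h1.le)
  apply Real.cos_nonneg_of_mem_Icc
  have := abs_le.1 ha
  constructor <;> nlinarith [Real.pi_pos]

theorem blW_pos {θ a : ℝ} (h0 : 0 < θ) (h1 : θ < Real.pi / 2) (ha : |a| < 1 / 2) :
    0 < bl θ a := by
  unfold bl
  apply div_pos _ Real.pi_pos
  rw [Real.arsinh_pos_iff]
  exact mul_pos (Real.tan_pos_of_pos_of_lt_pi_div_two h0 h1) (cos_pi_pos ha)

theorem bl_abs (θ a : ℝ) : bl θ |a| = bl θ a := by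
  unfold bl
  rcases le_total 0 a with h | h
  · rw [abs_of_nonneg h]
  · rw [abs_of_nonpos h, mul_neg, Real.cos_neg]

/-- Data of a point of the core. -/
theorem core_data {θ v1 : ℝ} {v : ℂ} (h0 : 0 ≤ θ) (h1 : θ < Real.pi / 2) (h2 : 0 ≤ v1)
    (h3 : v1 < 1 / 2) (hv : v ∈ Core θ v1) :
    0 ≤ v.re ∧ v.re ≤ v1 ∧ |v.re| < 1 / 2 ∧ 0 ≤ v.im ∧ v.im ≤ bl θ v.re := by
  rcases hv with ⟨a, b, c⟩ | ⟨a, b, c⟩
  · have : |v.re| < 1 / 2 := by rw [abs_of_nonneg a]; linarith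
    exact ⟨a, b, this, by rw [c]; exact bl_nonneg h0 h1 this.le, c.le⟩
  · refine ⟨by linarith, a.le, by rw [a, abs_of_nonneg h2]; exact h3, b, by rw [a]; exact c⟩

end Pool.Agent.S3
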