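import Pool.Agent.S3.W.Right

/-!
# A pair of core points: the polygon

`v` and `w` are points of the first quadrant below the `u`-lines of height `θ` and `θ'`; the slots
are `op v` and `op (conj w)`.
-/

set_option autoImplicit false

namespace Pool.Agent.S3

open Complex
open Pool.Agent.H25.RK (gdv gdv_re_lt gdv_hasDerivAt)

/-- Points of the first quadrant below the `u`-line with `re v ≤ 1/3`. -/
structure Und (θ : ℝ) (v : ℂ) : Prop where
  re0 : 0 ≤ v.re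
  re1 : v.re ≤ 1 / 3
  im0 : 0 ≤ v.im
  im1 : v.im ≤ bl θ v.re

/-- The heights: `tan² θ ≤ 53 / 147`. -/
structure Ht (θ : ℝ) : Prop where
  pos : 0 < θ
  lt : θ < Real.pi / 2
  tan : 147 * Real.tan θ ^ 2 ≤ 53

section

variable {θ θ' : ℝ} {v w : ℂ}

theorem Und.abs (h : Und θ v) : |v.re| < 1 / 2 := by
  rw [abs_of_nonneg h.re0]; linarith [h.re1]

theorem Ht.abs (h : Ht θ) : |θ| < Real.pi / 2 := by
  rw [abs_of_pos h.pos]; exact h.lt

/-- Data of the coordinate. -/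
theorem Und.u (h : Und θ v) (hθ : Ht θ) : 0 ≤ (uof v).re ∧ 0 ≤ (uof v).im ∧ (uof v).im ≤ θ ∧
    (uof v).im < Real.pi / 2 ∧ 147 * Real.tan (uof v).im ^ 2 ≤ 53 := by
  have h1 := uof_re_nonneg h.abs h.re0
  have h2 := uof_im_nonneg h.abs h.im0
  have h3 := uof_im_le h.abs hθ.abs h.im1
  refine ⟨h1, h2, h3, h3.trans_lt hθ.lt, ?_⟩
  have t0 : 0 ≤ Real.tan (uof v).im :=
    Real.tan_nonneg_of_nonneg_of_le_pi_div_two h2 (h3.trans hθ.lt.le)
  have t1 : Real.tan (uof v).im ≤ Real.tan θ := by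
    rcases h3.eq_or_lt with h4 | h4
    · rw [h4]
    · exact (Real.tan_lt_tan_of_lt_of_lt_pi_div_two (by linarith [Real.pi_pos]) hθ.lt h4).le
  have := pow_le_pow_left₀ t0 t1 2
  linarith [hθ.tan]

theorem Und.conj_u (h : Und θ v) : uof ((starRingEnd ℂ) v) = (starRingEnd ℂ) (uof v) := by
  have e : (Real.pi : ℂ) * (starRingEnd ℂ) v = (starRingEnd ℂ) ((Real.pi : ℂ) * v) := by
    rw [map_mul, conj_ofReal]
  rw [uof, uof, e, igd_conj (pi_re_lt h.abs)]

theorem conj_abs (h : |v.re| < 1 / 2) : |((starRingEnd ℂ) v).re| < 1 / 2 := by rwa [conj_re]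

theorem Und.sin_le (h : Und θ v) : Real.sin (Real.pi * v.re) ^ 2 ≤ 3 / 4 := by
  have hpi := Real.pi_pos
  have s0 : 0 ≤ Real.sin (Real.pi * v.re) := Real.sin_nonneg_of_nonneg_of_le_pi
    (mul_nonneg hpi.le h.re0) (by nlinarith [h.re1])
  have h1 : Real.sin (Real.pi * v.re) ≤ Real.sin (Real.pi / 3) := by
    apply Real.sin_le_sin_of_le_of_le_pi_div_two
    · have := mul_nonneg hpi.le h.re0
      linarith
    · linarith
    · have := mul_le_mul_of_nonneg_left h.re1 hpi.le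
      linarith
  rw [Real.sin_pi_div_three] at h1
  have h2 := pow_le_pow_left₀ s0 h1 2
  have h3 : (√3 / 2) ^ 2 = 3 / 4 := by
    rw [div_pow, Real.sq_sqrt (by norm_num)]
    norm_num
  rw [h3] at h2
  exact h2

/-- The phase of a core point. -/
theorem Und.phase (h : Und θ v) (hθ : Ht θ) : 0 ≤ (Lc (uof v)).im ∧
    (Lc (uof v)).im ≤ 5201 / 10000 := by
  obtain ⟨u1, u2, u3, u4, u5⟩ := h.u hθ
  have hu : |(uof v).im| < Real.pi / 2 := uof_im_lt h.abs
  refine ⟨Lc_im_nonneg hu u1 u2, ?_⟩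
  have e : (Lc (uof v)).im = aa (uof v).re (uof v).im := by
    conv_lhs => rw [← re_add_im (uof v)]
    exact Lc_im _ _ hu
  rw [e, aa]
  have t0 : 0 ≤ Real.tan (uof v).im :=
    Real.tan_nonneg_of_nonneg_of_le_pi_div_two u2 u4.le
  have t1 := tanh_nonneg' u1
  apply (arctan_le_self' (mul_nonneg t1 t0)).trans
  apply le_of_sq_le_sq _ (by norm_num)
  rw [mul_pow]
  have h1 : Real.tanh (uof v).re ^ 2 ≤ 3 / 4 := by
    rw [tanh_uof_re h.abs, div_pow]
    have h2 := h.sin_le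
    have h3 : 1 ≤ Real.cosh (Real.pi * v.im) ^ 2 := by
      have := Real.one_le_cosh (Real.pi * v.im)
      nlinarith
    rw [div_le_iff₀ (by positivity)]
    nlinarith
  have h2 : Real.tan (uof v).im ^ 2 ≤ 53 / 147 := by linarith
  have := mul_le_mul h1 h2 (by positivity) (by norm_num)
  norm_num at this ⊢
  linarith

theorem Und.bl_sinh (h : Und θ v) (hθ : Ht θ) :
    147 * Real.sinh (Real.pi * v.im) ^ 2 ≤ 53 * Real.cos (Real.pi * v.re) ^ 2 := by
  have h1 : Real.sinh (Real.pi * v.im) ≤ Real.tan θ * Real.cos (Real.pi * v.re) := by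
    rw [← sinh_pi_bl]
    exact Real.sinh_le_sinh.2 (mul_le_mul_of_nonneg_left h.im1 Real.pi_pos.le)
  have h0 : 0 ≤ Real.sinh (Real.pi * v.im) :=
    Real.sinh_nonneg_iff.2 (mul_nonneg Real.pi_pos.le h.im0)
  have h2 := pow_le_pow_left₀ h0 h1 2
  rw [mul_pow] at h2
  have h3 := mul_le_mul_of_nonneg_right hθ.tan (sq_nonneg (Real.cos (Real.pi * v.re)))
  nlinarith

/-! ### The pair -/

/-- Both points. -/
structure Pr (θ θ' : ℝ) (v w : ℂ) : Prop where
  hv : Und θ v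
  hw : Und θ' w
  hθ : Ht θ
  hθ' : Ht θ'
  S : θ + θ' < Real.pi / 2

theorem Pr.symm (h : Pr θ θ' v w) : Pr θ' θ w v :=
  ⟨h.hw, h.hv, h.hθ', h.hθ, by have := h.S; linarith⟩

theorem Pr.qo (h : Pr θ θ' v w) : QO (uof v) ((starRingEnd ℂ) (uof w)) := by
  obtain ⟨u1, u2, u3, u4, u5⟩ := h.hv.u h.hθ
  obtain ⟨w1, w2, w3, w4, w5⟩ := h.hw.u h.hθ'
  refine ⟨?_, u1, by rwa [conj_re], u2, by rw [conj_im]; linarith⟩
  rw [Reg, conj_im, abs_neg, abs_of_nonneg u2, abs_of_nonneg w2]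
  linarith [h.S]

/-- The critical point of the edge. -/
noncomputable def yv (v w : ℂ) : ℂ := yy (uof v) ((starRingEnd ℂ) (uof w))

theorem Pr.gdv_u (h : Pr θ θ' v w) : gdv (uof v) = v := gdv_uof h.hv.abs

theorem Pr.gdv_w (h : Pr θ θ' v w) : gdv ((starRingEnd ℂ) (uof w)) = (starRingEnd ℂ) w := by
  rw [← h.hw.conj_u, gdv_uof (conj_abs h.hw.abs)]

/-- The growth rate at the critical point is the real part of `Φ`. -/
theorem Pr.bridge {Φ : ℂ → ℂ → ℂ} (hΦ : IsPhi Φ) (h0 : Φ 0 0 = c00) (h : Pr θ θ' v w) :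
    EE (.op v) (.op ((starRingEnd ℂ) w)) (yv v w) = (Φ v ((starRingEnd ℂ) w)).re := by
  have hq := h.qo
  have hq' := hq.conj
  have hpi := Real.pi_gt_d4
  obtain ⟨p1, p2⟩ := h.hv.phase h.hθ
  obtain ⟨r1, r2⟩ := h.hw.phase h.hθ'
  have hwl : |(uof w).im| < Real.pi / 2 := uof_im_lt h.hw.abs
  have hul : |(uof v).im| < Real.pi / 2 := uof_im_lt h.hv.abs
  have r3 : (Lc ((starRingEnd ℂ) (uof w))).im = -(Lc (uof w)).im := by
    rw [Lc_conj hwl, conj_im]
  have p3 : (Lc ((starRingEnd ℂ) (uof v))).im = -(Lc (uof v)).im := by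
    rw [Lc_conj hul, conj_im]
  have n1 : |(Lm (uof v) ((starRingEnd ℂ) (uof w))).im| < Real.pi := by
    obtain ⟨f1, f2, f3, f4, f5, f6, f7⟩ := hq.facts
    obtain ⟨g1, g2⟩ := hq.Lm_im
    rw [S3.Lm_im] at g1 g2 ⊢
    rw [abs_lt]
    constructor <;> linarith
  have n2 : |(Lm ((starRingEnd ℂ) ((starRingEnd ℂ) (uof w))) ((starRingEnd ℂ) (uof v))).im| <
      Real.pi := by
    obtain ⟨f1, f2, f3, f4, f5, f6, f7⟩ := hq'.facts
    obtain ⟨g1, g2⟩ := hq'.Lm_im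
    rw [S3.Lm_im] at g1 g2 ⊢
    rw [conj_conj] at *
    rw [abs_lt]
    constructor <;> linarith
  have l1 := lossL_eq_zero (hq.not_loss n1)
  have l2 := lossL_eq_zero (hq'.not_loss n2)
  have e2 : yy ((starRingEnd ℂ) ((starRingEnd ℂ) (uof w))) ((starRingEnd ℂ) (uof v)) -
      gdv ((starRingEnd ℂ) ((starRingEnd ℂ) (uof w))) =
      (starRingEnd ℂ) (yy (uof v) ((starRingEnd ℂ) (uof w)) - gdv ((starRingEnd ℂ) (uof w))) := by
    rw [yy_comm, yy_conj hq.reg, gdv_conj hq.reg.right, map_sub]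
  rw [e2] at l2
  have k := bridge_QO_re hΦ h0 hq
  rw [l1, l2, sub_zero, sub_zero, ← gdv_eq_gd hul, ← gdv_eq_gd hq.reg.right, h.gdv_u,
    h.gdv_w] at k
  exact k.symm

theorem Pr.yv_re (h : Pr θ θ' v w) : 0 < (yv v w).re ∧ (yv v w).re < 1 / 2 :=
  ⟨yy_re_pos h.qo.reg, yy_re_lt h.qo.reg⟩

theorem cosh_sq_of {v : ℂ} (h : |v.re| < 1 / 2) : cosh (uof v) ^ 2 = 1 / cos (Real.pi * v) ^ 2 := by
  rw [uof, cosh_igd (pi_re_lt h), div_pow, one_pow]

/-- The equation of the critical point. -/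
theorem Pr.yv_eq (h : Pr θ θ' v w) : 1 / cos (Real.pi * yv v w) ^ 2 =
    1 / cos (Real.pi * v) ^ 2 + 1 / cos (Real.pi * (starRingEnd ℂ) w) ^ 2 := by
  have h1 := cos_yy_sq h.qo.reg
  rw [← cosh_sq_of h.hv.abs, ← cosh_sq_of (conj_abs h.hw.abs), h.hw.conj_u]
  have h2 : cos (Real.pi * yv v w) ^ 2 ≠ 0 := pow_ne_zero 2 (cos_yy_ne h.qo.reg)
  rw [div_eq_iff h2, mul_comm]
  exact h1.symm

theorem cosh_sq_re_ge {u : ℂ} (h0 : 0 ≤ u.im) (h1 : u.im < Real.pi / 2)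
    (h2 : 147 * Real.tan u.im ^ 2 ≤ 53) : 147 / 200 ≤ (cosh u ^ 2).re := by
  have hc : 0 < Real.cos u.im := Real.cos_pos_of_mem_Ioo ⟨by linarith [Real.pi_pos], h1⟩
  have e : (cosh u ^ 2).re = Real.cos u.im ^ 2 + Real.sinh u.re ^ 2 *
      (Real.cos u.im ^ 2 - Real.sin u.im ^ 2) := by
    rw [sq, mul_re, cosh_re', cosh_im']
    have := Real.cosh_sq u.re
    linear_combination (Real.cos u.im ^ 2) * this
  have h3 := Real.sin_sq_add_cos_sq u.im
  have h4 : 147 * Real.sin u.im ^ 2 ≤ 53 * Real.cos u.im ^ 2 := by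
    rw [Real.tan_eq_sin_div_cos, div_pow, ← mul_div_assoc, div_le_iff₀ (by positivity)] at h2
    exact h2
  rw [e]
  have h5 : 0 ≤ Real.sinh u.re ^ 2 * (Real.cos u.im ^ 2 - Real.sin u.im ^ 2) := by
    apply mul_nonneg (sq_nonneg _)
    nlinarith [sq_nonneg (Real.sin u.im)]
  linarith

theorem Pr.yv_im (h : Pr θ θ' v w) : |(yv v w).im| ≤ 1 := by
  obtain ⟨u1, u2, u3, u4, u5⟩ := h.hv.u h.hθ
  obtain ⟨w1, w2, w3, w4, w5⟩ := h.hw.u h.hθ'
  have k1 := cosh_sq_re_ge u2 u4 u5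
  have k2 := cosh_sq_re_ge w2 w4 w5
  have k3 : (cosh ((starRingEnd ℂ) (uof w)) ^ 2).re = (cosh (uof w) ^ 2).re := by
    rw [← conj_cosh', ← map_pow, conj_re]
  have h1 := cos_yy_sq h.qo.reg
  have h2 : 1 ≤ normSq (cosh (uof v) ^ 2 + cosh ((starRingEnd ℂ) (uof w)) ^ 2) := by
    have h3 : 1 ≤ (cosh (uof v) ^ 2 + cosh ((starRingEnd ℂ) (uof w)) ^ 2).re := by
      rw [add_re, k3]; linarith
    rw [normSq_apply]
    nlinarith [mul_self_nonneg (cosh (uof v) ^ 2 + cosh ((starRingEnd ℂ) (uof w)) ^ 2).im]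
  have h3 := congrArg normSq h1
  rw [map_mul, map_pow, map_one] at h3
  change normSq (cos (Real.pi * yv v w)) ^ 2 * _ = 1 at h3
  by_contra hc
  push Not at hc
  have h4 : 1 < normSq (cos (Real.pi * yv v w)) := by
    have e := nn_eq (yv v w).re (yv v w).im
    rw [re_add_im] at e
    rw [e, nn]
    have h5 : 1 < Real.sinh (Real.pi * (yv v w).im) ^ 2 := by
      have h6 : 1 < |Real.sinh (Real.pi * (yv v w).im)| := by
        rw [Real.abs_sinh]
        have h7 : |Real.pi * (yv v w).im| ≤ Real.sinh |Real.pi * (yv v w).im| :=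
          Real.self_le_sinh_iff.2 (abs_nonneg _)
        rw [abs_mul, abs_of_pos Real.pi_pos] at h7
        rw [abs_mul, abs_of_pos Real.pi_pos]
        have := Real.pi_gt_three
        nlinarith only [hc, h7, this]
      rw [← sq_abs]
      nlinarith
    have := sq_nonneg (Real.cos (Real.pi * (yv v w).re))
    linarith
  have h5 : 1 < normSq (cos (Real.pi * yv v w)) ^ 2 := by nlinarith
  nlinarith only [h2, h3, h5]

theorem yv_swap (h : Pr θ θ' v w) : yv w v = (starRingEnd ℂ) (yv v w) := by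
  have e := yy_conj (u := uof w) (w := (starRingEnd ℂ) (uof v)) h.symm.qo.reg
  rw [conj_conj] at e
  rw [yv, yv, ← conj_conj (yy (uof w) ((starRingEnd ℂ) (uof v))), ← e, yy_comm]

/-- The left vertical. -/
theorem Pr.left (h : Pr θ θ' v w) {Y : ℝ} (hY : Y ∈ Set.uIcc 0 (yv v w).im) :
    EE (.op v) (.op ((starRingEnd ℂ) w)) (((0 : ℝ) : ℂ) + Y * I) ≤
      max (Real.pi * (v.im + w.im))
        (EE (.op v) (.op ((starRingEnd ℂ) w)) (((0 : ℝ) : ℂ) + (yv v w).im * I)) := by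
  have key : ∀ {θ θ' : ℝ} {v w : ℂ}, Pr θ θ' v w → 0 < (yv v w).im → ∀ {Y : ℝ}, 0 ≤ Y →
      Y ≤ (yv v w).im → gE v.re v.im w.re w.im Y ≤
        max (Real.pi * (v.im + w.im)) (gE v.re v.im w.re w.im (yv v w).im) := by
    intro θ θ' v w h hh Y h0 h1
    have e := h.yv_eq
    have ew : (starRingEnd ℂ) w = (w.re : ℂ) + ((-w.im : ℝ) : ℂ) * I := by
      conv_lhs => rw [← re_add_im w]
      exact conj_line _ _
    rw [ew] at e
    have hv1 := h.hv.abs
    rw [abs_of_nonneg h.hv.re0] at hv1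
    have := gE_left_pos (y := yv v w) (h := (yv v w).im) h.hv.re0 hv1 h.hw.re0 h.hw.re1 h.hv.im0
      h.hw.im0 (h.hw.bl_sinh h.hθ') h.yv_re.1 h.yv_re.2 rfl hh (by rw [re_add_im]; exact e) h0 h1
    rwa [EE_zero h.hv.im0 h.hw.im0] at this
  have eE : ∀ (v w : ℂ) (Y : ℝ), EE (.op v) (.op ((starRingEnd ℂ) w)) (((0 : ℝ) : ℂ) + Y * I) =
      gE v.re v.im w.re w.im Y := by
    intro v w Y
    have ew : (starRingEnd ℂ) w = (w.re : ℂ) + ((-w.im : ℝ) : ℂ) * I := by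
      conv_lhs => rw [← re_add_im w]
      exact conj_line _ _
    rw [gE, re_add_im, ew]
  rw [eE, eE]
  rcases lt_trichotomy (yv v w).im 0 with hh | hh | hh
  · rw [Set.uIcc_of_ge hh.le] at hY
    have hs : (yv w v).im = -(yv v w).im := by rw [yv_swap h, conj_im]
    have := key h.symm (by rw [hs]; linarith) (Y := -Y) (by linarith [hY.2])
      (by rw [hs]; linarith [hY.1])
    rw [gE_swap v.re, gE_swap v.re v.im w.re w.im (yv v w).im, ← hs, add_comm v.im]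
    exact this
  · rw [hh, Set.uIcc_self, Set.mem_singleton_iff] at hY
    rw [hh, hY]
    exact le_max_right _ _
  · rw [Set.uIcc_of_le hh.le] at hY
    exact key h hh hY.1 hY.2

end

end Pool.Agent.S3
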