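import Pool.Agent.S3.FeL
import Pool.Agent.S3.Ks1
import Pool.Agent.S3.W.Core

/-!
# The left vertical of the polygon

For `v = a + i b`, `w = a' - i b'` in the first and the fourth quadrant and `h > 0`, where `h` is
the height of the critical point, `EE (op v) (op w) (i η) ≤ max (EE 0) (EE (i h))`.
-/

set_option autoImplicit false

namespace Pool.Agent.S3

open Complex
open Pool.Agent.H63.VC3 (hh)

/-- The argument of `sin π (a + i x)`. -/
noncomputable def Ha (a x : ℝ) : ℝ := (hh ((a : ℂ) + x * I)).im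

theorem sin_pi_line_re (a x : ℝ) : (2 * sin (Real.pi * ((a : ℂ) + x * I))).re =
    2 * (Real.sin (Real.pi * a) * Real.cosh (Real.pi * x)) := by
  have e2 : ∀ z : ℂ, (2 * z).re = 2 * z.re := fun z => by
    rw [show (2 : ℂ) = ((2 : ℝ) : ℂ) by norm_num, re_ofReal_mul]
  rw [e2, wsin_re, pi_mul_re, pi_mul_im, line_im, line_re]

theorem sin_pi_line_im (a x : ℝ) : (2 * sin (Real.pi * ((a : ℂ) + x * I))).im =
    2 * (Real.cos (Real.pi * a) * Real.sinh (Real.pi * x)) := by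
  have e2 : ∀ z : ℂ, (2 * z).im = 2 * z.im := fun z => by
    rw [show (2 : ℂ) = ((2 : ℝ) : ℂ) by norm_num, im_ofReal_mul]
  rw [e2, wsin_im, pi_mul_re, pi_mul_im, line_im, line_re]

theorem sin_pi_pos {a : ℝ} (h0 : 0 < a) (h1 : a < 1) : 0 < Real.sin (Real.pi * a) := by
  apply Real.sin_pos_of_pos_of_lt_pi (by have := Real.pi_pos; positivity)
  nlinarith [Real.pi_pos]

theorem Ha_eq {a : ℝ} (h0 : 0 < a) (h1 : a < 1) (x : ℝ) : Ha a x =
    Real.arctan (Real.cos (Real.pi * a) / Real.sin (Real.pi * a) * Real.tanh (Real.pi * x)) := by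
  have hs := sin_pi_pos h0 h1
  have hc := Real.cosh_pos (Real.pi * x)
  have hre : 0 < (2 * sin (Real.pi * ((a : ℂ) + x * I))).re := by
    rw [sin_pi_line_re]; positivity
  rw [Ha, hh, log_im, arg_eq_arctan hre, sin_pi_line_re, sin_pi_line_im, Real.tanh_eq_sinh_div_cosh]
  congr 1
  field_simp

theorem Ha_neg {a : ℝ} (h0 : 0 < a) (h1 : a < 1) (x : ℝ) : Ha a (-x) = -Ha a x := by
  rw [Ha_eq h0 h1, Ha_eq h0 h1, mul_neg, Real.tanh_neg, mul_neg, Real.arctan_neg]

theorem Ha_lt {a : ℝ} (h0 : 0 < a) (h1 : a < 1) (x : ℝ) : Ha a x < Real.pi / 2 := by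
  rw [Ha_eq h0 h1]; exact Real.arctan_lt_pi_div_two _

theorem Ha_gt {a : ℝ} (h0 : 0 < a) (h1 : a < 1) (x : ℝ) : -(Real.pi / 2) < Ha a x := by
  rw [Ha_eq h0 h1]; exact Real.neg_pi_div_two_lt_arctan _

theorem Ha_mono {a : ℝ} (h0 : 0 < a) (h1 : a < 1 / 2) {x y : ℝ} (h : x ≤ y) :
    Ha a x ≤ Ha a y := by
  rw [Ha_eq h0 (by linarith), Ha_eq h0 (by linarith)]
  apply Real.arctan_mono
  apply mul_le_mul_of_nonneg_left
  · exact tanh_mono' (mul_le_mul_of_nonneg_left h Real.pi_pos.le)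
  · have := sin_pi_pos h0 (by linarith)
    have := cos_pi_pos (a := a) (by rw [abs_of_pos h0]; exact h1)
    positivity

theorem Ha_pos {a : ℝ} (h0 : 0 < a) (h1 : a < 1 / 2) {x : ℝ} (h : 0 < x) : 0 < Ha a x := by
  rw [Ha_eq h0 (by linarith)]
  have h2 := sin_pi_pos h0 (by linarith)
  have h3 := cos_pi_pos (a := a) (by rw [abs_of_pos h0]; exact h1)
  have h4 : 0 < Real.tanh (Real.pi * x) := by
    rw [Real.tanh_eq_sinh_div_cosh]
    exact div_pos (Real.sinh_pos_iff.2 (mul_pos Real.pi_pos h)) (Real.cosh_pos _)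
  exact Real.arctan_pos.2 (by positivity)

theorem Rf_vert {a : ℝ} (h0 : 0 < a) (h1 : a < 1) (x : ℝ) :
    HasDerivAt (fun x : ℝ => Rf ((a : ℂ) + x * I)) (-Ha a x) x := by
  have e : (fun x : ℝ => Rf ((a : ℂ) + x * I)) = fun x : ℝ => (fe ((a : ℂ) + x * I)).re := by
    funext y
    exact Rf_eq_re_fe (Or.inr (by rw [line_re]; exact ⟨h0, h1⟩))
  rw [e]
  have hf : fdom ((a : ℂ) + x * I) := Or.inr (by rw [line_re]; exact ⟨h0, h1⟩)
  have h2 : HasDerivAt (fun x : ℝ => (a : ℂ) + (x : ℂ) * I) I x := by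
    have := ((HasDerivAt.ofReal_comp (hasDerivAt_id x)).mul_const I).const_add (a : ℂ)
    simpa using this
  have h3 := HasDerivAt.scomp (g₁ := fe) (h := fun x : ℝ => (a : ℂ) + (x : ℂ) * I) x
    (fe_hasDerivAt hf) h2
  have h4 := hasDerivAt_re h3
  refine h4.congr_deriv ?_
  rw [he_eq_hh (by rwa [line_re]) (by rwa [line_re]), smul_eq_mul, mul_re, I_re, I_im, Ha]
  ring

theorem Rf_vert_comp {a : ℝ} (h0 : 0 < a) (h1 : a < 1) (c η : ℝ) :
    HasDerivAt (fun η : ℝ => Rf ((a : ℂ) + ((η + c : ℝ) : ℂ) * I)) (-Ha a (η + c)) η := by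
  have := (Rf_vert h0 h1 (η + c)).comp_add_const η c
  exact this

/-- `sin π (v - i η) sin π (v + i η) = cosh² π η - cos² π v`. -/
theorem sin_mul_sin_line (a b η : ℝ) :
    (2 * sin (Real.pi * ((a : ℂ) + ((b - η : ℝ) : ℂ) * I))) *
      (2 * sin (Real.pi * ((a : ℂ) + ((b + η : ℝ) : ℂ) * I))) =
    4 * (((Real.cosh (Real.pi * η) ^ 2 : ℝ) : ℂ) - cos (Real.pi * ((a : ℂ) + b * I)) ^ 2) := by
  have e1 : (Real.pi : ℂ) * ((a : ℂ) + ((b - η : ℝ) : ℂ) * I) =
      Real.pi * ((a : ℂ) + b * I) - ((Real.pi * η : ℝ) : ℂ) * I := by push_cast; ring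
  have e2 : (Real.pi : ℂ) * ((a : ℂ) + ((b + η : ℝ) : ℂ) * I) =
      Real.pi * ((a : ℂ) + b * I) + ((Real.pi * η : ℝ) : ℂ) * I := by push_cast; ring
  rw [e1, e2, Complex.sin_sub, Complex.sin_add, Complex.cos_mul_I, Complex.sin_mul_I,
    ofReal_pow, ofReal_cosh]
  have h1 := Complex.sin_sq_add_cos_sq (Real.pi * ((a : ℂ) + b * I))
  have h2 := Complex.cosh_sq ((Real.pi * η : ℝ) : ℂ)
  linear_combination (4 * cosh ((Real.pi * η : ℝ) : ℂ) ^ 2) * h1 +
    (-4 * cos (Real.pi * ((a : ℂ) + b * I)) ^ 2) * h2 +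
    (-4 * cos (Real.pi * ((a : ℂ) + b * I)) ^ 2 * sinh ((Real.pi * η : ℝ) : ℂ) ^ 2) * I_sq

theorem cos_sq_line_re (a b : ℝ) : (cos (Real.pi * ((a : ℂ) + b * I)) ^ 2).re =
    Real.cos (Real.pi * a) ^ 2 * Real.cosh (Real.pi * b) ^ 2 -
      Real.sin (Real.pi * a) ^ 2 * Real.sinh (Real.pi * b) ^ 2 := by
  rw [sq, mul_re, wcos_re, wcos_im, pi_mul_re, pi_mul_im, line_im, line_re]
  ring

theorem cos_sq_line_im (a b : ℝ) : (cos (Real.pi * ((a : ℂ) + b * I)) ^ 2).im =
    -(2 * (Real.sin (Real.pi * a) * Real.cos (Real.pi * a) *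
      (Real.sinh (Real.pi * b) * Real.cosh (Real.pi * b)))) := by
  rw [sq, mul_im, wcos_re, wcos_im, pi_mul_re, pi_mul_im, line_im, line_re]
  ring

/-- The sum of two arguments. -/
theorem exp_Ha {a : ℝ} (h0 : 0 < a) (h1 : a < 1) (b η : ℝ) :
    exp (hh ((a : ℂ) + ((b - η : ℝ) : ℂ) * I) + hh ((a : ℂ) + ((b + η : ℝ) : ℂ) * I)) =
    4 * (((Real.cosh (Real.pi * η) ^ 2 : ℝ) : ℂ) - cos (Real.pi * ((a : ℂ) + b * I)) ^ 2) := by
  rw [exp_add, Pool.Agent.H63.VC3.hh_exp _ (by rwa [line_re]) (by rwa [line_re]),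
    Pool.Agent.H63.VC3.hh_exp _ (by rwa [line_re]) (by rwa [line_re]), sin_mul_sin_line]

/-- The sign of `α_v - α_w`. -/
theorem Ha_sign {a b a' b' η : ℝ} (ha : 0 < a) (ha1 : a < 1 / 2) (ha' : 0 < a')
    (ha1' : a' < 1 / 2) (hη : 0 ≤ η) (hηb : η < b) (hb' : 0 ≤ b') :
    ∃ R : ℝ, 0 < R ∧ R * Real.sin ((Ha a (b - η) + Ha a (b + η)) - (Ha a' (b' - η) + Ha a' (b' + η)))
      = Real.cosh (Real.pi * η) ^ 2 * ((Real.sin (Real.pi * a) * Real.cos (Real.pi * a) *
          (Real.sinh (Real.pi * b) * Real.cosh (Real.pi * b))) - (Real.sin (Real.pi * a') *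
            Real.cos (Real.pi * a') * (Real.sinh (Real.pi * b') * Real.cosh (Real.pi * b')))) -
        ((Real.sin (Real.pi * a) * Real.cos (Real.pi * a) *
          (Real.sinh (Real.pi * b) * Real.cosh (Real.pi * b))) *
            (Real.cos (Real.pi * a') ^ 2 * Real.cosh (Real.pi * b') ^ 2 -
              Real.sin (Real.pi * a') ^ 2 * Real.sinh (Real.pi * b') ^ 2) -
          (Real.sin (Real.pi * a') *
            Real.cos (Real.pi * a') * (Real.sinh (Real.pi * b') * Real.cosh (Real.pi * b'))) *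
            (Real.cos (Real.pi * a) ^ 2 * Real.cosh (Real.pi * b) ^ 2 -
              Real.sin (Real.pi * a) ^ 2 * Real.sinh (Real.pi * b) ^ 2)) := by
  obtain ⟨W1, hW1⟩ : ∃ W, W = hh ((a : ℂ) + ((b - η : ℝ) : ℂ) * I) +
    hh ((a : ℂ) + ((b + η : ℝ) : ℂ) * I) := ⟨_, rfl⟩
  obtain ⟨W2, hW2⟩ : ∃ W, W = hh ((a' : ℂ) + ((b' - η : ℝ) : ℂ) * I) +
    hh ((a' : ℂ) + ((b' + η : ℝ) : ℂ) * I) := ⟨_, rfl⟩
  have e1 := exp_Ha ha (by linarith) b η
  have e2 := exp_Ha ha' (by linarith) b' η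
  rw [← hW1] at e1
  rw [← hW2] at e2
  have i1 : W1.im = Ha a (b - η) + Ha a (b + η) := by rw [hW1, add_im]; rfl
  have i2 : W2.im = Ha a' (b' - η) + Ha a' (b' + η) := by rw [hW2, add_im]; rfl
  rw [← i1, ← i2]
  refine ⟨Real.exp W1.re * Real.exp W2.re / 32, by positivity, ?_⟩
  have k1 : (exp W1 * (starRingEnd ℂ) (exp W2)).im =
      Real.exp W1.re * Real.exp W2.re * Real.sin (W1.im - W2.im) := by
    rw [← exp_conj, ← exp_add, exp_im, add_re, add_im, conj_re, conj_im, Real.exp_add,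
      sub_eq_add_neg]
  have k2 : (exp W1 * (starRingEnd ℂ) (exp W2)).im = 16 *
      ((Real.cosh (Real.pi * η) ^ 2 - (cos (Real.pi * ((a' : ℂ) + b' * I)) ^ 2).re) *
        (-(cos (Real.pi * ((a : ℂ) + b * I)) ^ 2).im) -
      (Real.cosh (Real.pi * η) ^ 2 - (cos (Real.pi * ((a : ℂ) + b * I)) ^ 2).re) *
        (-(cos (Real.pi * ((a' : ℂ) + b' * I)) ^ 2).im)) := by
    rw [e1, e2, map_mul, map_sub, conj_ofReal, Complex.conj_ofNat]
    rw [show (4 : ℂ) = ((4 : ℝ) : ℂ) by norm_num, mul_mul_mul_comm, ← ofReal_mul, im_ofReal_mul,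
      mul_im, sub_re, sub_im, sub_re, sub_im, conj_re, conj_im, ofReal_re, ofReal_im]
    ring
  rw [k1, cos_sq_line_re, cos_sq_line_re, cos_sq_line_im, cos_sq_line_im] at k2
  linear_combination k2 / 32

/-! ### The growth rate on the left vertical -/

theorem se_left_eq (a b η : ℝ) : se (((0 : ℝ) : ℂ) + η * I) (.op ((a : ℂ) + b * I)) =
    Real.pi * |η - b| + Rf ((a : ℂ) + ((η + -b : ℝ) : ℂ) * I) -
      Rf ((a : ℂ) + ((η + b : ℝ) : ℂ) * I) := by
  have e1 : ((0 : ℝ) : ℂ) + (η : ℂ) * I + 1 / 2 = ((1 / 2 : ℝ) : ℂ) + η * I := by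
    push_cast
    ring
  have e2 : ((0 : ℝ) : ℂ) + (η : ℂ) * I - ((a : ℂ) + b * I) =
      ((-a : ℝ) : ℂ) + ((η - b : ℝ) : ℂ) * I := by
    push_cast
    ring
  have e3 : ((0 : ℝ) : ℂ) + (η : ℂ) * I + ((a : ℂ) + b * I) =
      (a : ℂ) + ((η + b : ℝ) : ℂ) * I := by
    push_cast
    ring
  unfold se
  simp only
  rw [e1, e2, e3, Rf_half, Rf_neg_line, ← sub_eq_add_neg η b]
  ring

/-- The growth rate on the left vertical. -/
noncomputable def gE (a b a' b' η : ℝ) : ℝ :=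
  EE (.op ((a : ℂ) + b * I)) (.op ((a' : ℂ) + ((-b' : ℝ) : ℂ) * I)) (((0 : ℝ) : ℂ) + η * I)

/-- Without the absolute values. -/
noncomputable def gP (a b a' b' η : ℝ) : ℝ :=
  Rf ((a : ℂ) + ((η + -b : ℝ) : ℂ) * I) - Rf ((a : ℂ) + ((η + b : ℝ) : ℂ) * I) +
    Rf ((a' : ℂ) + ((η + b' : ℝ) : ℂ) * I) - Rf ((a' : ℂ) + ((η + -b' : ℝ) : ℂ) * I)

theorem gE_eq (a b a' b' η : ℝ) : gE a b a' b' η =
    Real.pi * |η - b| + Real.pi * |η + b'| + gP a b a' b' η := by
  rw [gE, EE, se_left_eq, se_left_eq, gP, neg_neg, sub_neg_eq_add]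
  ring

theorem gP_deriv {a a' : ℝ} (ha : 0 < a) (ha1 : a < 1 / 2) (ha' : 0 < a') (ha1' : a' < 1 / 2)
    (b b' η : ℝ) : HasDerivAt (gP a b a' b')
      ((Ha a (b - η) + Ha a (b + η)) - (Ha a' (b' - η) + Ha a' (b' + η))) η := by
  have h1 := Rf_vert_comp ha (by linarith) (-b) η
  have h2 := Rf_vert_comp ha (by linarith) b η
  have h3 := Rf_vert_comp ha' (by linarith) b' η
  have h4 := Rf_vert_comp ha' (by linarith) (-b') η
  have h := ((h1.fun_sub h2).fun_add h3).fun_sub h4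
  refine h.congr_deriv ?_
  have n1 := Ha_neg ha (by linarith) (b - η)
  have n2 := Ha_neg ha' (by linarith) (b' - η)
  have e1 : -(b - η) = η + -b := by ring
  have e2 : -(b' - η) = η + -b' := by ring
  rw [e1] at n1
  rw [e2] at n2
  rw [n1, n2, add_comm η b, add_comm η b']
  ring

/-- The function of the left vertical whose sign is the sign of the derivative. -/
noncomputable def pp (a b : ℝ) : ℝ := Real.sin (Real.pi * a) * Real.cos (Real.pi * a) *
  (Real.sinh (Real.pi * b) * Real.cosh (Real.pi * b))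

noncomputable def kr (a b : ℝ) : ℝ := Real.cos (Real.pi * a) ^ 2 * Real.cosh (Real.pi * b) ^ 2 -
  Real.sin (Real.pi * a) ^ 2 * Real.sinh (Real.pi * b) ^ 2

theorem gP_sign {a b a' b' η : ℝ} (ha : 0 < a) (ha1 : a < 1 / 2) (ha' : 0 < a')
    (ha1' : a' < 1 / 2) (hη : 0 ≤ η) (hηb : η < b) (hb' : 0 ≤ b') :
    (0 ≤ Real.cosh (Real.pi * η) ^ 2 * (pp a b - pp a' b') - (pp a b * kr a' b' -
        pp a' b' * kr a b) →
      0 ≤ (Ha a (b - η) + Ha a (b + η)) - (Ha a' (b' - η) + Ha a' (b' + η))) ∧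
    (Real.cosh (Real.pi * η) ^ 2 * (pp a b - pp a' b') - (pp a b * kr a' b' -
        pp a' b' * kr a b) ≤ 0 →
      (Ha a (b - η) + Ha a (b + η)) - (Ha a' (b' - η) + Ha a' (b' + η)) ≤ 0) := by
  obtain ⟨R, hR, h⟩ := Ha_sign ha ha1 ha' ha1' hη hηb hb'
  have a1 := Ha_pos ha ha1 (x := b - η) (by linarith)
  have a2 := Ha_pos ha ha1 (x := b + η) (by linarith)
  have a3 := Ha_lt ha (by linarith) (b - η)
  have a4 := Ha_lt ha (by linarith) (b + η)
  have a5 := Ha_lt ha' (by linarith) (b' - η)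
  have a6 := Ha_lt ha' (by linarith) (b' + η)
  have a7 : 0 ≤ Ha a' (b' - η) + Ha a' (b' + η) := by
    have h1 := Ha_mono ha' ha1' (x := -(b' - η)) (y := b' + η) (by linarith)
    rw [Ha_neg ha' (by linarith)] at h1
    linarith
  obtain ⟨S, hS⟩ : ∃ S, S = (Ha a (b - η) + Ha a (b + η)) - (Ha a' (b' - η) + Ha a' (b' + η)) :=
    ⟨_, rfl⟩
  have hS1 : S < Real.pi := by rw [hS]; linarith
  have hS2 : -Real.pi < S := by rw [hS]; linarith
  rw [← hS] at h ⊢
  unfold pp kr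
  rw [← h]
  constructor
  · intro h0
    by_contra hc
    push Not at hc
    have := Real.sin_neg_of_neg_of_neg_pi_lt hc hS2
    have := mul_neg_of_pos_of_neg hR this
    linarith
  · intro h0
    by_contra hc
    push Not at hc
    have := Real.sin_pos_of_pos_of_lt_pi hc hS1
    have := mul_pos hR this
    linarith

/-- The derivative above the vertex. -/
theorem gP_above {a b a' b' η : ℝ} (ha : 0 < a) (ha1 : a < 1 / 2) (ha' : 0 < a')
    (ha1' : a' < 1 / 2) (hb : 0 ≤ b) (hb' : 0 ≤ b') (hη : b ≤ η) :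
    -(2 * Real.pi) ≤ (Ha a (b - η) + Ha a (b + η)) - (Ha a' (b' - η) + Ha a' (b' + η)) := by
  have a1 : 0 ≤ Ha a (b - η) + Ha a (b + η) := by
    have h1 := Ha_mono ha ha1 (x := -(b - η)) (y := b + η) (by linarith)
    rw [Ha_neg ha (by linarith)] at h1
    linarith
  have a5 := Ha_lt ha' (by linarith) (b' - η)
  have a6 := Ha_lt ha' (by linarith) (b' + η)
  linarith [Real.pi_pos]

theorem gP_continuous (a b a' b' : ℝ) : Continuous (gP a b a' b') := by
  have := Rf_continuous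
  unfold gP
  fun_prop

/-- The sign pattern: on the left vertical the growth rate is at most its values at the ends. -/
theorem gE_le {a b a' b' h η : ℝ} (ha : 0 < a) (ha1 : a < 1 / 2) (ha' : 0 < a')
    (ha1' : a' < 1 / 2) (hb : 0 ≤ b) (hb' : 0 ≤ b') (hη : 0 ≤ η) (hηh : η ≤ h)
    (hpat : pp a' b' ≤ pp a b ∨ pp a b - pp a' b' ≤ pp a b * kr a' b' - pp a' b' * kr a b) :
    gE a b a' b' η ≤ max (gE a b a' b' 0) (gE a b a' b' h) := by
  have hpi := Real.pi_pos
  -- above `b`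
  have up : ∀ x y : ℝ, b ≤ x → x ≤ y → gE a b a' b' x ≤ gE a b a' b' y := by
    intro x y hx hxy
    have hm : MonotoneOn (fun t : ℝ => 2 * Real.pi * t + gP a b a' b' t) (Set.Ici b) := by
      apply monotoneOn_of_deriv_nonneg (convex_Ici b)
      · exact (by fun_prop : Continuous fun t : ℝ => 2 * Real.pi * t).continuousOn.add
          (gP_continuous _ _ _ _).continuousOn
      · intro t _
        exact ((((hasDerivAt_id t).const_mul (2 * Real.pi)).fun_add
          (gP_deriv ha ha1 ha' ha1' b b' t)).differentiableAt).differentiableWithinAt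
      · intro t ht
        rw [interior_Ici, Set.mem_Ioi] at ht
        have hd := ((hasDerivAt_id t).const_mul (2 * Real.pi)).fun_add
          (gP_deriv ha ha1 ha' ha1' b b' t)
        have h1 := gP_above ha ha1 ha' ha1' hb hb' ht.le
        have : deriv (fun t : ℝ => 2 * Real.pi * t + gP a b a' b' t) t =
            2 * Real.pi * 1 + ((Ha a (b - t) + Ha a (b + t)) - (Ha a' (b' - t) + Ha a' (b' + t))) :=
          hd.deriv
        rw [this]
        linarith
    have := hm (Set.mem_Ici.2 hx) (Set.mem_Ici.2 (hx.trans hxy)) hxy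
    simp only at this
    rw [gE_eq, gE_eq, abs_of_nonneg (by linarith : 0 ≤ x - b), abs_of_nonneg (by linarith : 0 ≤ x + b'),
      abs_of_nonneg (by linarith : 0 ≤ y - b), abs_of_nonneg (by linarith : 0 ≤ y + b')]
    linarith
  -- below `b` the growth rate is `gP + const`
  have low : ∀ x : ℝ, 0 ≤ x → x ≤ b → gE a b a' b' x = Real.pi * (b + b') + gP a b a' b' x := by
    intro x h0 h1
    rw [gE_eq, abs_of_nonpos (by linarith : x - b ≤ 0), abs_of_nonneg (by linarith : 0 ≤ x + b')]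
    ring
  have dif : ∀ D : Set ℝ, DifferentiableOn ℝ (gP a b a' b') D := fun D t _ =>
    (gP_deriv ha ha1 ha' ha1' b b' t).differentiableAt.differentiableWithinAt
  obtain ⟨F, hF⟩ : ∃ F : ℝ → ℝ, F = fun t => Real.cosh (Real.pi * t) ^ 2 * (pp a b - pp a' b') -
    (pp a b * kr a' b' - pp a' b' * kr a b) := ⟨_, rfl⟩
  have incr : ∀ x y : ℝ, 0 ≤ x → x ≤ y → y ≤ b → (∀ t, x < t → t < y → 0 ≤ F t) →
      gE a b a' b' x ≤ gE a b a' b' y := by
    intro x y h0 hxy hyb hs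
    have hm : MonotoneOn (gP a b a' b') (Set.Icc x y) := by
      apply monotoneOn_of_deriv_nonneg (convex_Icc x y) (gP_continuous _ _ _ _).continuousOn (dif _)
      intro t ht
      rw [interior_Icc] at ht
      rw [(gP_deriv ha ha1 ha' ha1' b b' t).deriv]
      apply (gP_sign ha ha1 ha' ha1' (h0.trans ht.1.le) (ht.2.trans_le hyb) hb').1
      have := hs t ht.1 ht.2
      rwa [hF] at this
    have := hm ⟨le_rfl, hxy⟩ ⟨hxy, le_rfl⟩ hxy
    rw [low x h0 (hxy.trans hyb), low y (h0.trans hxy) hyb]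
    linarith
  have decr : ∀ x y : ℝ, 0 ≤ x → x ≤ y → y ≤ b → (∀ t, x < t → t < y → F t ≤ 0) →
      gE a b a' b' y ≤ gE a b a' b' x := by
    intro x y h0 hxy hyb hs
    have hm : AntitoneOn (gP a b a' b') (Set.Icc x y) := by
      apply antitoneOn_of_deriv_nonpos (convex_Icc x y) (gP_continuous _ _ _ _).continuousOn (dif _)
      intro t ht
      rw [interior_Icc] at ht
      rw [(gP_deriv ha ha1 ha' ha1' b b' t).deriv]
      apply (gP_sign ha ha1 ha' ha1' (h0.trans ht.1.le) (ht.2.trans_le hyb) hb').2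
      have := hs t ht.1 ht.2
      rwa [hF] at this
    have := hm ⟨le_rfl, hxy⟩ ⟨hxy, le_rfl⟩ hxy
    rw [low x h0 (hxy.trans hyb), low y (h0.trans hxy) hyb]
    linarith
  have cmono : ∀ x y : ℝ, 0 ≤ x → x ≤ y →
      Real.cosh (Real.pi * x) ^ 2 ≤ Real.cosh (Real.pi * y) ^ 2 := by
    intro x y h0 hxy
    apply pow_le_pow_left₀ (Real.cosh_pos _).le
    rw [Real.cosh_le_cosh, abs_of_nonneg (by positivity), abs_of_nonneg
      (mul_nonneg hpi.le (h0.trans hxy))]
    exact mul_le_mul_of_nonneg_left hxy hpi.le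
  rcases le_total b η with hbη | hbη
  · exact (up η h hbη hηh).trans (le_max_right _ _)
  rcases hpat with hp | hp
  · -- `F` increases
    have Fm : ∀ x y : ℝ, 0 ≤ x → x ≤ y → F x ≤ F y := by
      intro x y h0 hxy
      rw [hF]
      simp only
      have := mul_le_mul_of_nonneg_right (cmono x y h0 hxy) (sub_nonneg.2 hp)
      linarith
    rcases le_total 0 (F η) with h0 | h0
    · -- increasing from `η` on
      rcases le_total h b with hhb | hhb
      · exact (incr η h hη hηh hhb fun t h1 _ => h0.trans (Fm η t hη h1.le)).trans (le_max_right _ _)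
      · exact ((incr η b hη hbη le_rfl fun t h1 _ => h0.trans (Fm η t hη h1.le)).trans
          (up b h le_rfl hhb)).trans (le_max_right _ _)
    · exact (decr 0 η le_rfl hη hbη fun t h1 h2 => (Fm t η h1.le h2.le).trans h0).trans
        (le_max_left _ _)
  · rcases le_total (pp a' b') (pp a b) with hq | hq
    · have Fm : ∀ x y : ℝ, 0 ≤ x → x ≤ y → F x ≤ F y := by
        intro x y h0 hxy
        rw [hF]
        simp only
        have := mul_le_mul_of_nonneg_right (cmono x y h0 hxy) (sub_nonneg.2 hq)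
        linarith
      rcases le_total 0 (F η) with h0 | h0
      · rcases le_total h b with hhb | hhb
        · exact (incr η h hη hηh hhb fun t h1 _ => h0.trans (Fm η t hη h1.le)).trans
            (le_max_right _ _)
        · exact ((incr η b hη hbη le_rfl fun t h1 _ => h0.trans (Fm η t hη h1.le)).trans
            (up b h le_rfl hhb)).trans (le_max_right _ _)
      · exact (decr 0 η le_rfl hη hbη fun t h1 h2 => (Fm t η h1.le h2.le).trans h0).trans
          (le_max_left _ _)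
    · refine (decr 0 η le_rfl hη hbη fun t h1 _ => ?_).trans (le_max_left _ _)
      rw [hF]
      simp only
      have h2 := cmono 0 t le_rfl h1.le
      rw [mul_zero, Real.cosh_zero, one_pow] at h2
      have h3 := mul_le_mul_of_nonpos_right h2 (sub_nonpos.2 hq)
      linarith

end Pool.Agent.S3
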