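import Mathlib

/-!
# The left vertical of the polygon: algebra

`s = sin π a`, `c = cos π a`, `x = sinh π b`, `k = cosh π b`; `S`, `C`, `X`, `K` for the other vertex.
-/

set_option autoImplicit false

namespace Pool.Agent.S3

theorem pos_of_mul_pos_of_nonneg {a b : ℝ} (ha : 0 ≤ a) (h : 0 < a * b) : 0 < b := by
  by_contra hb
  push Not at hb
  have := mul_nonpos_of_nonneg_of_nonpos ha hb
  linarith only [this, h]

/-- Step A: `x ↦ x (1 + x) / (q + x)⁴` increases. -/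
theorem la_stepA {q x y : ℝ} (hq : 1 / 4 ≤ q) (hq1 : q ≤ 1) (hx : 0 ≤ x) (hxy : x ≤ y)
    (hy : 147 * y ≤ 53 * q) : x * (1 + x) * (q + y) ^ 4 ≤ y * (1 + y) * (q + x) ^ 4 := by
  have hq0 : 0 < q := by linarith only [hq]
  obtain ⟨N, hN⟩ : ∃ N, N = x / q := ⟨_, rfl⟩
  obtain ⟨M, hM⟩ : ∃ M, M = y / q := ⟨_, rfl⟩
  have ex : x = q * N := by rw [hN]; field_simp
  have ey : y = q * M := by rw [hM]; field_simp
  have hN0 : 0 ≤ N := by rw [hN]; positivity
  have hNM : N ≤ M := by rw [hN, hM]; exact div_le_div_of_nonneg_right hxy hq0.le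
  have hM1 : 147 * M ≤ 53 := by
    rw [hM, ← mul_div_assoc, div_le_iff₀ hq0]; exact hy
  have key : 0 ≤ (1 - q) * ((1 + N) ^ 3 + (1 + N) ^ 2 * (1 + M) + (1 + N) * (1 + M) ^ 2 +
      (1 + M) ^ 3) - (1 - 2 * q) * ((1 + N) * (1 + M) * ((1 + N) ^ 2 + (1 + N) * (1 + M) +
      (1 + M) ^ 2)) - q * ((1 + N) ^ 2 * (1 + M) ^ 2 * (2 + N + M)) := by
    have hM0 : 0 ≤ M := hN0.trans hNM
    have p1 : 0 ≤ ((1 + N) ^ 2 + (1 + N) * (1 + M) + (1 + M) ^ 2) - (1 + N) * (1 + M) *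
        (2 + N + M) := by
      linarith only [mul_nonneg (mul_nonneg hN0 hM0) (sub_nonneg.2 hM1),
        mul_nonneg hM0 (sub_nonneg.2 hM1), mul_nonneg hN0 (sub_nonneg.2 hM1), hM1, hN0,
        sq_nonneg (N - M), mul_nonneg (sq_nonneg (1 + N)) (sub_nonneg.2 hNM),
        mul_nonneg (sq_nonneg (N - M)) (sub_nonneg.2 hN0)]
    have p2 : 0 ≤ 3 * ((1 + N) ^ 3 + (1 + N) ^ 2 * (1 + M) + (1 + N) * (1 + M) ^ 2 +
      (1 + M) ^ 3) - 2 * ((1 + N) * (1 + M) * ((1 + N) ^ 2 + (1 + N) * (1 + M) +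
      (1 + M) ^ 2)) - ((1 + N) ^ 2 * (1 + M) ^ 2 * (2 + N + M)) := by
      obtain ⟨s, hs⟩ : ∃ s, s = 2 + N + M := ⟨_, rfl⟩
      obtain ⟨p, hp⟩ : ∃ p, p = (1 + N) * (1 + M) := ⟨_, rfl⟩
      have e : 3 * ((1 + N) ^ 3 + (1 + N) ^ 2 * (1 + M) + (1 + N) * (1 + M) ^ 2 +
        (1 + M) ^ 3) - 2 * ((1 + N) * (1 + M) * ((1 + N) ^ 2 + (1 + N) * (1 + M) +
        (1 + M) ^ 2)) - ((1 + N) ^ 2 * (1 + M) ^ 2 * (2 + N + M)) =
        3 * s ^ 3 - 6 * p * s - 2 * p * (s ^ 2 - p) - p ^ 2 * s := by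
        rw [hs, hp]; ring
      rw [e]
      have h1 : 4 * p ≤ s ^ 2 := by rw [hs, hp]; linarith only [sq_nonneg (N - M)]
      have h2 : 2 ≤ s := by rw [hs]; linarith only [hNM, hN0]
      have h3 : 147 * s ≤ 400 := by rw [hs]; linarith only [hM1, hNM]
      have h4 : 0 ≤ p := by rw [hp]; positivity
      -- compare with `p = s² / 4`
      have h5 : 3 * s ^ 3 - 6 * (s ^ 2 / 4) * s - 2 * (s ^ 2 / 4) * (s ^ 2 - s ^ 2 / 4) -
          (s ^ 2 / 4) ^ 2 * s ≤ 3 * s ^ 3 - 6 * p * s - 2 * p * (s ^ 2 - p) - p ^ 2 * s := by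
        have h6 : 0 ≤ (s ^ 2 / 4 - p) * (6 * s + 2 * s ^ 2 - 2 * (s ^ 2 / 4 + p) +
            (s ^ 2 / 4 + p) * s) := by
          apply mul_nonneg (by linarith only [h1])
          (refine le_of_not_gt fun hng => ?_; linarith only [hng, h1, hs, hNM, hN0, sq_nonneg (s),
            mul_nonneg (sub_nonneg.2 hng.le) (sub_nonneg.2 hs.le),
            mul_nonneg (sub_nonneg.2 hng.le) (sub_nonneg.2 hs.ge),
            mul_nonneg (sub_nonneg.2 hng.le) (sub_nonneg.2 hNM),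
            mul_nonneg (sub_nonneg.2 hng.le) (sub_nonneg.2 hN0),
            mul_nonneg (sq_nonneg (s)) (sub_nonneg.2 h4),
            mul_nonneg (sq_nonneg (s)) (sub_nonneg.2 hs.le),
            mul_nonneg (sq_nonneg (s)) (sub_nonneg.2 hs.ge),
            mul_nonneg (sq_nonneg (s)) (sub_nonneg.2 hNM),
            mul_nonneg (sq_nonneg (s)) (sub_nonneg.2 hN0),
            mul_nonneg (sq_nonneg (s)) (sq_nonneg (s))])
        linarith only [h6]
      have h7 : 0 ≤ 3 * s ^ 3 - 6 * (s ^ 2 / 4) * s - 2 * (s ^ 2 / 4) * (s ^ 2 - s ^ 2 / 4) -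
          (s ^ 2 / 4) ^ 2 * s := by
        have e2 : 3 * s ^ 3 - 6 * (s ^ 2 / 4) * s - 2 * (s ^ 2 / 4) * (s ^ 2 - s ^ 2 / 4) -
          (s ^ 2 / 4) ^ 2 * s = s ^ 3 * (3 / 2 - 3 / 8 * s - s ^ 2 / 16) := by ring
        rw [e2]
        apply mul_nonneg (by positivity)
        (refine le_of_not_gt fun hng => ?_; linarith only [hng, hs, ey, ex, hy, hxy,
          mul_nonneg (sub_nonneg.2 hN0) (sub_nonneg.2 hs.le),
          mul_nonneg (sub_nonneg.2 hN0) (sub_nonneg.2 hs.ge),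
          mul_nonneg (sub_nonneg.2 hN0) (sub_nonneg.2 hM1),
          mul_nonneg (sub_nonneg.2 hN0) (sub_nonneg.2 hNM),
          mul_nonneg (sub_nonneg.2 hq1) (sub_nonneg.2 hM1),
          mul_nonneg (sub_nonneg.2 hq1) (sub_nonneg.2 hNM),
          mul_nonneg (sub_nonneg.2 hng.le) (sub_nonneg.2 hs.le),
          mul_nonneg (sub_nonneg.2 hng.le) (sub_nonneg.2 hs.ge),
          mul_nonneg (sub_nonneg.2 hng.le) (sub_nonneg.2 hM1),
          mul_nonneg (sub_nonneg.2 hng.le) (sub_nonneg.2 hN0),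
          mul_nonneg (sq_nonneg (s)) (sub_nonneg.2 hs.le),
          mul_nonneg (sq_nonneg (s)) (sub_nonneg.2 hs.ge),
          mul_nonneg (sq_nonneg (s)) (sub_nonneg.2 hNM)])
      linarith only [h7, h5]
    have hc : 0 < (1 + N) * (1 + M) := by positivity
    have p3 := mul_nonneg hc.le p1
    linarith only [mul_nonneg (sub_nonneg.2 hq) p3, mul_nonneg (sub_nonneg.2 hq1) p2]
  have e : y * (1 + y) * (q + x) ^ 4 - x * (1 + x) * (q + y) ^ 4 =
      (y - x) * q ^ 4 * ((1 - q) * ((1 + N) ^ 3 + (1 + N) ^ 2 * (1 + M) + (1 + N) * (1 + M) ^ 2 +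
      (1 + M) ^ 3) - (1 - 2 * q) * ((1 + N) * (1 + M) * ((1 + N) ^ 2 + (1 + N) * (1 + M) +
      (1 + M) ^ 2)) - q * ((1 + N) ^ 2 * (1 + M) ^ 2 * (2 + N + M))) := by
    rw [ex, ey]; ring
  have := mul_nonneg (mul_nonneg (sub_nonneg.2 hxy) (pow_nonneg hq0.le 4)) key
  linarith only [this, e]

/-- Step B: `q ↦ (1 - q) q / (q + y)⁴` decreases. -/
theorem la_stepB {q r y : ℝ} (hr : 0 < r) (hrq : r ≤ q) (hq1 : q ≤ 1) (hy : 0 ≤ y) (hyr : y ≤ r) :
    (1 - q) * q * (r + y) ^ 4 ≤ (1 - r) * r * (q + y) ^ 4 := by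
  have h1 : q * (r + y) ^ 2 ≤ r * (q + y) ^ 2 := by
    linarith only [mul_nonneg (sub_nonneg.2 hrq) (sub_nonneg.2 (show y ^ 2 ≤ q * r by nlinarith))]
  have h2 : (r + y) ^ 2 ≤ (q + y) ^ 2 := by (refine le_of_not_gt fun hng => ?_; linarith only [h1,
                                              mul_pos (sub_pos.2 hng) (sub_pos.2 hr),
                                              mul_nonneg (sq_nonneg (r + y)) (sub_nonneg.2 hrq)])
  have h3 : (q * (r + y) ^ 2) * (r + y) ^ 2 ≤ (r * (q + y) ^ 2) * (q + y) ^ 2 :=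
    mul_le_mul h1 h2 (by positivity) (by positivity)
  have h4 : 0 ≤ q * (r + y) ^ 2 * (r + y) ^ 2 := by
    have : 0 < q := by linarith only [hrq, hr]
    positivity
  calc (1 - q) * q * (r + y) ^ 4 = (1 - q) * (q * (r + y) ^ 2 * (r + y) ^ 2) := by ring
    _ ≤ (1 - r) * (q * (r + y) ^ 2 * (r + y) ^ 2) :=
        mul_le_mul_of_nonneg_right (by linarith only [hrq]) h4
    _ ≤ (1 - r) * ((r * (q + y) ^ 2) * (q + y) ^ 2) :=
        mul_le_mul_of_nonneg_left h3 (by linarith only [hq1, hrq])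
    _ = _ := by ring

/-- The imaginary part of `tan² π v` increases. -/
theorem la_mono {s c x k S C X K : ℝ} (hs : 0 ≤ s) (hc : 0 < c) (hx : 0 ≤ x) (hk : 0 < k)
    (hS : 0 ≤ S) (hC : 0 < C) (hX : 0 ≤ X) (hK : 0 < K) (h1 : s ^ 2 + c ^ 2 = 1)
    (h2 : k ^ 2 = 1 + x ^ 2) (h3 : S ^ 2 + C ^ 2 = 1) (h4 : K ^ 2 = 1 + X ^ 2)
    (hcC : C ≤ c) (hxX : x ≤ X) (hS3 : S ^ 2 ≤ 3 / 4) (hz : 147 * X ^ 2 ≤ 53 * C ^ 2) :
    s * c * (x * k) * (C ^ 2 + X ^ 2) ^ 2 ≤ S * C * (X * K) * (c ^ 2 + x ^ 2) ^ 2 := by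
  have hc2 : C ^ 2 ≤ c ^ 2 := pow_le_pow_left₀ hC.le hcC 2
  have hx2 : x ^ 2 ≤ X ^ 2 := pow_le_pow_left₀ hx hxX 2
  have A : (x * k) * (c ^ 2 + X ^ 2) ^ 2 ≤ (X * K) * (c ^ 2 + x ^ 2) ^ 2 := by
    apply le_of_sq_le_sq _ (by positivity)
    have := la_stepA (q := c ^ 2) (x := x ^ 2) (y := X ^ 2) (by linarith only [hc2, hS3, h3]) (by linarith only [h1,
                                                                                                    sq_nonneg (s)])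
      (by positivity) hx2 (by linarith only [hc2, hz])
    calc ((x * k) * (c ^ 2 + X ^ 2) ^ 2) ^ 2 = x ^ 2 * k ^ 2 * (c ^ 2 + X ^ 2) ^ 4 := by ring
      _ ≤ X ^ 2 * K ^ 2 * (c ^ 2 + x ^ 2) ^ 4 := by rw [h2, h4]; exact this
      _ = _ := by ring
  have B : (s * c) * (C ^ 2 + X ^ 2) ^ 2 ≤ (S * C) * (c ^ 2 + X ^ 2) ^ 2 := by
    apply le_of_sq_le_sq _ (by positivity)
    have := la_stepB (q := c ^ 2) (r := C ^ 2) (y := X ^ 2) (by positivity) hc2 (by linarith only [h1,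
                                                                                      sq_nonneg (s)])
      (by positivity) (by linarith only [hz, hS3, h3])
    calc ((s * c) * (C ^ 2 + X ^ 2) ^ 2) ^ 2 = s ^ 2 * c ^ 2 * (C ^ 2 + X ^ 2) ^ 4 := by ring
      _ = (1 - c ^ 2) * c ^ 2 * (C ^ 2 + X ^ 2) ^ 4 := by rw [← h1]; ring
      _ ≤ (1 - C ^ 2) * C ^ 2 * (c ^ 2 + X ^ 2) ^ 4 := this
      _ = S ^ 2 * C ^ 2 * (c ^ 2 + X ^ 2) ^ 4 := by rw [← h3]; ring
      _ = _ := by ring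
  have m : 0 < (c ^ 2 + X ^ 2) ^ 2 := by positivity
  have AB := mul_le_mul A B (by positivity) (by positivity)
  have e1 : x * k * (c ^ 2 + X ^ 2) ^ 2 * (s * c * (C ^ 2 + X ^ 2) ^ 2) =
      (s * c * (x * k) * (C ^ 2 + X ^ 2) ^ 2) * (c ^ 2 + X ^ 2) ^ 2 := by ring
  have e2 : X * K * (c ^ 2 + x ^ 2) ^ 2 * (S * C * (c ^ 2 + X ^ 2) ^ 2) =
      (S * C * (X * K) * (c ^ 2 + x ^ 2) ^ 2) * (c ^ 2 + X ^ 2) ^ 2 := by ring
  rw [e1, e2] at AB
  exact le_of_mul_le_mul_right AB m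

/-- The sign pattern `+ -` is impossible on the left vertical. -/
theorem la_pattern {s c x k S C X K : ℝ} (hs : 0 ≤ s) (hc : 0 < c) (hx : 0 ≤ x) (hk : 0 < k)
    (hS : 0 ≤ S) (hC : 0 < C) (hX : 0 ≤ X) (hK : 0 < K) (h1 : s ^ 2 + c ^ 2 = 1)
    (h2 : k ^ 2 = 1 + x ^ 2) (h3 : S ^ 2 + C ^ 2 = 1) (h4 : K ^ 2 = 1 + X ^ 2)
    (hS3 : S ^ 2 ≤ 3 / 4) (hz : 147 * X ^ 2 ≤ 53 * C ^ 2)
    (hG : S * C * (X * K) * (c ^ 2 + x ^ 2) ^ 2 < s * c * (x * k) * (C ^ 2 + X ^ 2) ^ 2) :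
    S * C * (X * K) ≤ s * c * (x * k) ∨
      s * c * (x * k) - S * C * (X * K) ≤ s * c * (x * k) * (C ^ 2 * K ^ 2 - S ^ 2 * X ^ 2) -
        S * C * (X * K) * (c ^ 2 * k ^ 2 - s ^ 2 * x ^ 2) := by
  by_contra hcon
  push Not at hcon
  obtain ⟨hA, hB⟩ := hcon
  have hn : 0 < c ^ 2 + x ^ 2 := by positivity
  have hN : 0 < C ^ 2 + X ^ 2 := by positivity
  have hp : 0 ≤ s * c * (x * k) := by positivity
  have hq : 0 ≤ S * C * (X * K) := by positivity
  rcases le_or_gt X x with hxX | hxX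
  · -- `b' ≤ b`
    have hx2 : X ^ 2 ≤ x ^ 2 := pow_le_pow_left₀ hX hxX 2
    have n1 : (c ^ 2 + x ^ 2) ^ 2 < (C ^ 2 + X ^ 2) ^ 2 := by
      by_contra h0
      push Not at h0
      have := mul_le_mul hA.le h0 (by positivity) hq
      linarith only [this, hG]
    have n2 : c ^ 2 + x ^ 2 < C ^ 2 + X ^ 2 := lt_of_pow_lt_pow_left₀ 2 hN.le n1
    have c2 : c ^ 2 < C ^ 2 := by linarith only [n2, hx2]
    have sc : s * c < S * C := by
      by_contra h0
      push Not at h0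
      have h5 : X * K ≤ x * k := by
        apply mul_le_mul hxX _ hK.le hx
        apply le_of_sq_le_sq _ hk.le
        rw [h2, h4]; linarith only [hx2]
      have := mul_le_mul h0 h5 (by positivity) (by positivity)
      linarith only [this, hA]
    have sc2 : (s * c) ^ 2 < (S * C) ^ 2 := pow_lt_pow_left₀ sc (by positivity) two_ne_zero
    have c3 : c ^ 2 + C ^ 2 < 1 := by
      have : (C ^ 2 - c ^ 2) * (1 - c ^ 2 - C ^ 2) > 0 := by linarith only [sc2,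
                                                               mul_nonneg (sq_nonneg (C)) (sub_nonneg.2 h3.le),
                                                               mul_nonneg (sq_nonneg (C)) (sub_nonneg.2 h3.ge),
                                                               mul_nonneg (sq_nonneg (c)) (sub_nonneg.2 h1.le),
                                                               mul_nonneg (sq_nonneg (c)) (sub_nonneg.2 h1.ge)]
      have h5 : 0 < C ^ 2 - c ^ 2 := by linarith only [n2, hx2]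
      have := pos_of_mul_pos_of_nonneg h5.le this
      linarith only [this]
    have e1 : 1 - (c ^ 2 * k ^ 2 - s ^ 2 * x ^ 2) = s ^ 2 + (s ^ 2 - c ^ 2) * x ^ 2 := by
      rw [h2]; linear_combination (-1 : ℝ) * h1
    have e2 : 1 - (C ^ 2 * K ^ 2 - S ^ 2 * X ^ 2) = S ^ 2 + (S ^ 2 - C ^ 2) * X ^ 2 := by
      rw [h4]; linear_combination (-1 : ℝ) * h3
    have d1 : 0 < s ^ 2 - c ^ 2 := by linarith only [c3, n2, hx2, h1]
    have d2 : 0 < 1 - (c ^ 2 * k ^ 2 - s ^ 2 * x ^ 2) := by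
      rw [e1]
      have := mul_nonneg d1.le (sq_nonneg x)
      linarith only [this, c3, n2, hx2, h1]
    have d3 : 1 - (C ^ 2 * K ^ 2 - S ^ 2 * X ^ 2) ≤ 1 - (c ^ 2 * k ^ 2 - s ^ 2 * x ^ 2) := by
      rw [e1, e2]
      have f1 : (S ^ 2 - C ^ 2) * X ^ 2 ≤ (s ^ 2 - c ^ 2) * X ^ 2 :=
        mul_le_mul_of_nonneg_right (by linarith only [n2, hx2, h3, h1]) (sq_nonneg X)
      have f2 : (s ^ 2 - c ^ 2) * X ^ 2 ≤ (s ^ 2 - c ^ 2) * x ^ 2 :=
        mul_le_mul_of_nonneg_left hx2 d1.le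
      linarith only [f2, f1, n2, hx2, h3, h1]
    have g1 := mul_le_mul_of_nonneg_left d3 hp
    have g2 := mul_le_mul_of_nonneg_right hA.le d2.le
    linarith only [g2, g1, hB]
  · -- `b < b'`
    obtain ⟨P, hP⟩ : ∃ P, P = s * k := ⟨_, rfl⟩
    obtain ⟨Q, hQ⟩ : ∃ Q, Q = c * x := ⟨_, rfl⟩
    obtain ⟨P', hP'⟩ : ∃ P', P' = S * K := ⟨_, rfl⟩
    obtain ⟨Q', hQ'⟩ : ∃ Q', Q' = C * X := ⟨_, rfl⟩
    have e1 : 1 - (c ^ 2 * k ^ 2 - s ^ 2 * x ^ 2) = P ^ 2 - Q ^ 2 := by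
      rw [hP, hQ]
      linear_combination (-(k ^ 2 - x ^ 2)) * h1 - h2
    have e2 : 1 - (C ^ 2 * K ^ 2 - S ^ 2 * X ^ 2) = P' ^ 2 - Q' ^ 2 := by
      rw [hP', hQ']
      linear_combination (-(K ^ 2 - X ^ 2)) * h3 - h4
    have hP0 : 0 ≤ P := by rw [hP]; positivity
    have hQ0 : 0 ≤ Q := by rw [hQ]; positivity
    have hP0' : 0 ≤ P' := by rw [hP']; positivity
    have hQ0' : 0 ≤ Q' := by rw [hQ']; positivity
    have e3 : s * c * (x * k) = P * Q := by rw [hP, hQ]; ring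
    have e4 : S * C * (X * K) = P' * Q' := by rw [hP', hQ']; ring
    have h5 : 0 < (P * P' + Q * Q') * (Q * P' - P * Q') := by
      have h6 : P' * Q' * (P ^ 2 - Q ^ 2) < P * Q * (P' ^ 2 - Q' ^ 2) := by
        rw [← e1, ← e2, ← e3, ← e4]
        linarith only [hB]
      linarith only [h6]
    have h6 : P * Q' < Q * P' := by
      have h7 : 0 ≤ P * P' + Q * Q' := by positivity
      have := pos_of_mul_pos_of_nonneg h7 h5
      linarith only [this]
    have h7 : (x * K) ^ 2 ≤ (X * k) ^ 2 := by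
      rw [mul_pow, mul_pow, h2, h4]
      have := pow_le_pow_left₀ hx hxX.le 2
      linarith only [this]
    have h8 : x * K ≤ X * k := le_of_sq_le_sq h7 (by positivity)
    have h9 : s * C * (x * K) < c * S * (x * K) := by
      calc s * C * (x * K) ≤ s * C * (X * k) :=
            mul_le_mul_of_nonneg_left h8 (by positivity)
        _ = P * Q' := by rw [hP, hQ']; ring
        _ < Q * P' := h6
        _ = c * S * (x * K) := by rw [hQ, hP']; ring
    have h10 : s * C < c * S := lt_of_mul_lt_mul_right h9 (by positivity)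
    have h11 : (s * C) ^ 2 < (c * S) ^ 2 := pow_lt_pow_left₀ h10 (by positivity) two_ne_zero
    have h12 : C ^ 2 ≤ c ^ 2 := by
      rw [mul_pow, mul_pow] at h11
      linarith only [h11, mul_nonneg (sq_nonneg (c)) (sub_nonneg.2 h3.le),
        mul_nonneg (sq_nonneg (c)) (sub_nonneg.2 h3.ge),
        mul_nonneg (sq_nonneg (C)) (sub_nonneg.2 h1.le),
        mul_nonneg (sq_nonneg (C)) (sub_nonneg.2 h1.ge)]
    have h13 : C ≤ c := le_of_sq_le_sq h12 hc.le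
    have := la_mono hs hc hx hk hS hC hX hK h1 h2 h3 h4 h13 hxX.le hS3 hz
    linarith only [this, hG]

end Pool.Agent.S3
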