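import Pool.Agent.S3.BridgeF
import Pool.Agent.S3.W.Left
import Pool.Agent.S3.W.LeftAlg

/-!
# The verticals of the polygon
-/

set_option autoImplicit false

namespace Pool.Agent.S3

open Complex

/-! ### The right vertical -/

theorem se_right_eq (a b η : ℝ) : se (((1 / 2 : ℝ) : ℂ) + η * I) (.op ((a : ℂ) + b * I)) =
    Real.pi * |η| + Rf (((1 / 2 + a : ℝ) : ℂ) + ((η - b : ℝ) : ℂ) * I) -
      Rf (((1 / 2 + a : ℝ) : ℂ) + ((η + b : ℝ) : ℂ) * I) := by
  have e1 : ((1 / 2 : ℝ) : ℂ) + (η : ℂ) * I + 1 / 2 = ((1 : ℝ) : ℂ) + η * I := by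
    push_cast
    ring
  have e2 : ((1 / 2 : ℝ) : ℂ) + (η : ℂ) * I - ((a : ℂ) + b * I) =
      ((1 - (1 / 2 + a) : ℝ) : ℂ) + ((η - b : ℝ) : ℂ) * I := by
    push_cast
    ring
  have e3 : ((1 / 2 : ℝ) : ℂ) + (η : ℂ) * I + ((a : ℂ) + b * I) =
      ((1 / 2 + a : ℝ) : ℂ) + ((η + b : ℝ) : ℂ) * I := by
    push_cast
    ring
  unfold se
  simp only
  rw [e1, e2, e3, Rf_one_line, Rf_one_sub_line]
  ring

theorem Rf_lip {a : ℝ} (h0 : 0 ≤ a) (h1 : a ≤ 1 / 2) (x y : ℝ) :
    |Rf (((1 / 2 + a : ℝ) : ℂ) + (x : ℂ) * I) - Rf (((1 / 2 + a : ℝ) : ℂ) + (y : ℂ) * I)| ≤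
      Real.pi / 2 * |x - y| := by
  have key : ∀ x y : ℝ, |x| ≤ |y| →
      |Rf (((1 / 2 + a : ℝ) : ℂ) + (x : ℂ) * I) - Rf (((1 / 2 + a : ℝ) : ℂ) + (y : ℂ) * I)| ≤
      Real.pi / 2 * |x - y| := by
    intro x y h
    have h2 := Rf_incr h (show (1 / 2 : ℝ) ≤ 1 / 2 + a by linarith)
    rw [Rf_half, Rf_half] at h2
    have h3 := Rf_incr h (show (1 / 2 + a : ℝ) ≤ 1 by linarith)
    rw [Rf_one_line, Rf_one_line] at h3
    have h4 : |y| - |x| ≤ |x - y| := by
      have := abs_sub_abs_le_abs_sub y x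
      rwa [abs_sub_comm] at this
    have h5 := mul_le_mul_of_nonneg_left h4 (by positivity : 0 ≤ Real.pi / 2)
    rw [abs_le]
    constructor <;> linarith
  rcases le_total |x| |y| with h | h
  · exact key x y h
  · rw [abs_sub_comm, abs_sub_comm x y]
    exact key y x h

theorem se_right_mono {a : ℝ} (b : ℝ) (h0 : 0 ≤ a) (h1 : a ≤ 1 / 2) {η h : ℝ}
    (hη : η ∈ Set.uIcc 0 h) :
    se (((1 / 2 : ℝ) : ℂ) + η * I) (.op ((a : ℂ) + b * I)) ≤
      se (((1 / 2 : ℝ) : ℂ) + h * I) (.op ((a : ℂ) + b * I)) := by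
  have e : |h - η| = |h| - |η| := by
    rcases le_total 0 h with hh | hh
    · rw [Set.uIcc_of_le hh] at hη
      rw [abs_of_nonneg hh, abs_of_nonneg hη.1, abs_of_nonneg (by linarith [hη.2])]
    · rw [Set.uIcc_of_ge hh] at hη
      rw [abs_of_nonpos hh, abs_of_nonpos hη.2, abs_of_nonpos (by linarith [hη.1])]
      ring
  rw [se_right_eq, se_right_eq]
  have l1 := abs_le.1 (Rf_lip h0 h1 (h - b) (η - b))
  have l2 := abs_le.1 (Rf_lip h0 h1 (h + b) (η + b))
  rw [show h - b - (η - b) = h - η by ring, e] at l1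
  rw [show h + b - (η + b) = h - η by ring, e] at l2
  linarith [l1.1, l2.2]

/-- The right vertical. -/
theorem EE_right {v w : ℂ} (hv : 0 ≤ v.re) (hv1 : v.re ≤ 1 / 2) (hw : 0 ≤ w.re)
    (hw1 : w.re ≤ 1 / 2) {η h : ℝ} (hη : η ∈ Set.uIcc 0 h) :
    EE (.op v) (.op w) (((1 / 2 : ℝ) : ℂ) + η * I) ≤
      EE (.op v) (.op w) (((1 / 2 : ℝ) : ℂ) + h * I) := by
  have h1 := se_right_mono v.im hv hv1 hη
  have h2 := se_right_mono w.im hw hw1 hη
  rw [re_add_im] at h1 h2
  unfold EE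
  linarith

/-! ### The left vertical, packaged -/

theorem EE_zero {a b a' b' : ℝ} (hb : 0 ≤ b) (hb' : 0 ≤ b') :
    gE a b a' b' 0 = Real.pi * (b + b') := by
  rw [gE_eq, gP]
  have e1 : ((0 + -b : ℝ) : ℂ) = ((-(0 + b) : ℝ) : ℂ) := by push_cast; ring
  have e2 : ((0 + -b' : ℝ) : ℂ) = ((-(0 + b') : ℝ) : ℂ) := by push_cast; ring
  rw [e1, e2, Rf_line_neg, Rf_line_neg, zero_sub, zero_add, abs_neg, abs_of_nonneg hb,
    abs_of_nonneg hb']
  ring

theorem gE_swap (a b a' b' η : ℝ) : gE a b a' b' η = gE a' b' a b (-η) := by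
  have h := EE_conj (((0 : ℝ) : ℂ) + η * I) ((a : ℂ) + b * I) ((a' : ℂ) + ((-b' : ℝ) : ℂ) * I)
  rw [conj_line, conj_line, conj_line, neg_neg] at h
  rw [gE, gE, ← h, EE_comm]

theorem gE_continuous_left (a b b' η : ℝ) : Continuous fun a' : ℝ => gE a b a' b' η := by
  have h : (fun a' : ℝ => gE a b a' b' η) = fun a' : ℝ =>
    Real.pi * |η - b| + Real.pi * |η + b'| + gP a b a' b' η := by
    funext a'
    exact gE_eq _ _ _ _ _
  rw [h]
  have := Rf_continuous
  unfold gP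
  fun_prop

/-- `|cos π v|²`. -/
noncomputable def nn (a b : ℝ) : ℝ := Real.cos (Real.pi * a) ^ 2 + Real.sinh (Real.pi * b) ^ 2

theorem nn_eq (a b : ℝ) : normSq (cos (Real.pi * ((a : ℂ) + b * I))) = nn a b := by
  rw [normSq_apply, wcos_re, wcos_im, pi_mul_re, pi_mul_im, line_im, line_re, nn]
  have h1 := Real.sin_sq_add_cos_sq (Real.pi * a)
  have h2 := Real.cosh_sq (Real.pi * b)
  linear_combination (Real.cos (Real.pi * a) ^ 2) * h2 + (Real.sinh (Real.pi * b) ^ 2) * h1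

theorem inv_cos_sq_im (a b : ℝ) : (1 / cos (Real.pi * ((a : ℂ) + b * I)) ^ 2).im =
    2 * pp a b / nn a b ^ 2 := by
  rw [one_div, inv_im, cos_sq_line_im, map_pow, nn_eq, neg_neg, pp]

theorem nn_pos {a : ℝ} (b : ℝ) (h : |a| < 1 / 2) : 0 < nn a b := by
  have := cos_pi_pos h
  unfold nn
  positivity

/-- The left vertical above the real axis. -/
theorem gE_left_pos {a b a' b' h η : ℝ} {y : ℂ} (ha : 0 ≤ a) (ha1 : a < 1 / 2) (ha' : 0 ≤ a')
    (ha1' : a' ≤ 1 / 3) (hb : 0 ≤ b) (hb' : 0 ≤ b')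
    (hz : 147 * Real.sinh (Real.pi * b') ^ 2 ≤ 53 * Real.cos (Real.pi * a') ^ 2)
    (hy0 : 0 < y.re) (hy1 : y.re < 1 / 2) (hyh : y.im = h) (hh : 0 < h)
    (hy : 1 / cos (Real.pi * y) ^ 2 = 1 / cos (Real.pi * ((a : ℂ) + b * I)) ^ 2 +
      1 / cos (Real.pi * ((a' : ℂ) + ((-b' : ℝ) : ℂ) * I)) ^ 2) (hη : 0 ≤ η) (hηh : η ≤ h) :
    gE a b a' b' η ≤ max (gE a b a' b' 0) (gE a b a' b' h) := by
  have hpi := Real.pi_pos
  have ea : |a| < 1 / 2 := by rw [abs_of_nonneg ha]; exact ha1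
  have ea' : |a'| < 1 / 2 := by rw [abs_of_nonneg ha']; linarith
  have ey : |y.re| < 1 / 2 := by rw [abs_of_pos hy0]; exact hy1
  have hn := nn_pos b ea
  have hn' := nn_pos b' ea'
  have hny := nn_pos h ey
  have hpy : 0 < pp y.re h := by
    have h1 := sin_pi_pos hy0 (by linarith)
    have h2 := cos_pi_pos ey
    have h3 : 0 < Real.sinh (Real.pi * h) := Real.sinh_pos_iff.2 (by positivity)
    have h4 := Real.cosh_pos (Real.pi * h)
    unfold pp
    positivity
  have e := congrArg Complex.im hy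
  have ey2 : y = ((y.re : ℝ) : ℂ) + ((h : ℝ) : ℂ) * I := by rw [← hyh, re_add_im]
  rw [ey2, add_im, inv_cos_sq_im, inv_cos_sq_im, inv_cos_sq_im] at e
  have em : pp a' (-b') = -pp a' b' := by
    unfold pp
    rw [mul_neg, Real.sinh_neg, Real.cosh_neg]; ring
  have en : nn a' (-b') = nn a' b' := by
    unfold nn
    rw [mul_neg, Real.sinh_neg]; ring
  rw [em, en] at e
  have hG : pp a' b' * nn a b ^ 2 < pp a b * nn a' b' ^ 2 := by
    have h1 : 0 < 2 * pp y.re h / nn y.re h ^ 2 := by positivity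
    rw [e] at h1
    have h2 : 2 * pp a b / nn a b ^ 2 + 2 * -pp a' b' / nn a' b' ^ 2 =
        2 * (pp a b * nn a' b' ^ 2 - pp a' b' * nn a b ^ 2) / (nn a b ^ 2 * nn a' b' ^ 2) := by
      field_simp
      ring
    rw [h2] at h1
    have h3 : 0 < 2 * (pp a b * nn a' b' ^ 2 - pp a' b' * nn a b ^ 2) := by
      by_contra hc
      push Not at hc
      have := div_nonpos_of_nonpos_of_nonneg hc
        (by positivity : 0 ≤ nn a b ^ 2 * nn a' b' ^ 2)
      linarith
    linarith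
  have s0 : 0 ≤ Real.sin (Real.pi * a) := Real.sin_nonneg_of_nonneg_of_le_pi
    (mul_nonneg hpi.le ha) (by nlinarith only [ha1, hpi])
  have s0' : 0 ≤ Real.sin (Real.pi * a') := Real.sin_nonneg_of_nonneg_of_le_pi
    (mul_nonneg hpi.le ha') (by nlinarith only [ha1', hpi])
  have c0 := cos_pi_pos ea
  have c0' := cos_pi_pos ea'
  have x0 : 0 ≤ Real.sinh (Real.pi * b) := Real.sinh_nonneg_iff.2 (mul_nonneg hpi.le hb)
  have x0' : 0 ≤ Real.sinh (Real.pi * b') := Real.sinh_nonneg_iff.2 (mul_nonneg hpi.le hb')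
  have k0 := Real.cosh_pos (Real.pi * b)
  have k0' := Real.cosh_pos (Real.pi * b')
  have pp0 : 0 ≤ pp a b := by unfold pp; positivity
  have pp0' : 0 ≤ pp a' b' := by unfold pp; positivity
  -- `a > 0`
  have hpp : 0 < pp a b := by
    rcases pp0.eq_or_lt with h0 | h0
    · rw [← h0, zero_mul] at hG
      have := mul_nonneg pp0' (sq_nonneg (nn a b))
      linarith
    · exact h0
  have ha0 : 0 < a := by
    rcases ha.eq_or_lt with h0 | h0
    · exfalso
      rw [← h0] at hpp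
      unfold pp at hpp
      rw [mul_zero, Real.sin_zero, zero_mul, zero_mul] at hpp
      exact lt_irrefl _ hpp
    · exact h0
  rcases ha'.eq_or_lt with h0 | h0
  · -- `a' = 0`: limit
    have hc : Continuous fun t : ℝ => pp t b' := by
      unfold pp
      fun_prop
    have hev : ∀ᶠ t in nhdsWithin (0 : ℝ) (Set.Ioi 0), gE a b t b' η ≤
        max (gE a b t b' 0) (gE a b t b' h) := by
      have hz0 : pp 0 b' < pp a b := by
        unfold pp at hpp ⊢
        rw [mul_zero, Real.sin_zero, zero_mul, zero_mul]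
        exact hpp
      have e1 : ∀ᶠ t in nhdsWithin (0 : ℝ) (Set.Ioi 0), pp t b' < pp a b :=
        (hc.continuousAt.eventually_lt continuousAt_const hz0).filter_mono nhdsWithin_le_nhds
      have e2 : ∀ᶠ t in nhdsWithin (0 : ℝ) (Set.Ioi 0), t < 1 / 2 :=
        (continuousAt_id.eventually_lt continuousAt_const (by norm_num)).filter_mono
          nhdsWithin_le_nhds
      filter_upwards [e1, e2, self_mem_nhdsWithin] with t h1 h2 h3
      exact gE_le ha0 ha1 h3 h2 hb hb' hη hηh (Or.inl h1.le)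
    have l1 : Filter.Tendsto (fun t => gE a b t b' η) (nhdsWithin (0 : ℝ) (Set.Ioi 0))
        (nhds (gE a b 0 b' η)) :=
      ((gE_continuous_left a b b' η).tendsto 0).mono_left nhdsWithin_le_nhds
    have l2 : Filter.Tendsto (fun t => max (gE a b t b' 0) (gE a b t b' h))
        (nhdsWithin (0 : ℝ) (Set.Ioi 0)) (nhds (max (gE a b 0 b' 0) (gE a b 0 b' h))) :=
      (((gE_continuous_left a b b' 0).max (gE_continuous_left a b b' h)).tendsto 0).mono_left
        nhdsWithin_le_nhds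
    rw [← h0]
    exact le_of_tendsto_of_tendsto l1 l2 hev
  · apply gE_le ha0 ha1 h0 (by linarith) hb hb' hη hηh
    have hS3 : Real.sin (Real.pi * a') ^ 2 ≤ 3 / 4 := by
      have h1 : Real.sin (Real.pi * a') ≤ Real.sin (Real.pi / 3) := by
        apply Real.sin_le_sin_of_le_of_le_pi_div_two
        · have := mul_nonneg hpi.le ha'
          linarith
        · linarith
        · have := mul_le_mul_of_nonneg_left ha1' hpi.le
          linarith
      rw [Real.sin_pi_div_three] at h1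
      have h2 := pow_le_pow_left₀ s0' h1 2
      have h3 : (√3 / 2) ^ 2 = 3 / 4 := by
        rw [div_pow, Real.sq_sqrt (by norm_num)]
        norm_num
      rw [h3] at h2
      exact h2
    exact la_pattern s0 c0 x0 k0 s0' c0' x0' k0' (Real.sin_sq_add_cos_sq _)
      (by have := Real.cosh_sq (Real.pi * b); linarith) (Real.sin_sq_add_cos_sq _)
      (by have := Real.cosh_sq (Real.pi * b'); linarith) hS3 hz hG

end Pool.Agent.S3
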