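import Pool.Agent.S3.CritCfg
import Pool.Agent.S3.Edg
import Pool.Agent.S3.W.Main

/-!
# Open-open edges of the chain
-/

set_option autoImplicit false

namespace Pool.Agent.S3

open Complex
open Pool.Agent.H63.VC7 (inc)
open Pool.Agent.S3.E
open Pool.Agent.H25.RK (gdv gdv_re_lt gdv_hasDerivAt ul)

variable {m : ℕ}

/-- The other end of the edge. -/
def oth (j : Fin m) (i : Fin (m + 1)) : Fin (m + 1) := if i = j.castSucc then j.succ else j.castSucc

@[simp] theorem oth_cs (j : Fin m) : oth j j.castSucc = j.succ := if_pos rfl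

@[simp] theorem oth_su (j : Fin m) : oth j j.succ = j.castSucc := if_neg (ne_cs j)

/-- The weight of the vertex `i` in the edge `j`. -/
noncomputable def lamC (a : Fin (m + 1) → ℕ) (z : Fin (m + 1) → ℂ) (j : Fin m)
    (i : Fin (m + 1)) : ℝ := bw (z i) (z (oth j i)) / a i

section

variable {a : Fin (m + 1) → ℕ} {σ : Fin (m + 1) → ℤ} {z : Fin (m + 1) → ℂ}

theorem lamC_sum (h : Zr (fun i => (a i : ℝ)) chL chR 1 z) (ha : ∀ i, 2 ≤ a i)
    (i : Fin (m + 1)) :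
    ∑ j ∈ inc (Fin.castSucc (n := m)) Fin.succ i, lamC a z j i = 1 := by
  have h0 : (a i : ℝ) ≠ 0 := by
    have := ha i
    positivity
  unfold lamC oth
  rw [← Finset.sum_div, sum_bw, h.sum_bwo i, div_self h0]

theorem ell_mirror (vc Q : ℂ) (β : ℝ) (v : ℂ) :
    ell (mir vc) (-((starRingEnd ℂ) Q)) (-β) v = ell vc Q β (mir v) := by
  unfold ell
  have e : (mir v - vc) = -((starRingEnd ℂ) (v - mir vc)) := by
    unfold mir
    simp only [map_sub, map_neg, conj_conj]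
    ring
  have e2 : 2 * Q * (mir v - vc) + I * (β : ℂ) / 2 * (mir v - vc) ^ 2 =
      (starRingEnd ℂ) (2 * (-((starRingEnd ℂ) Q)) * (v - mir vc) +
        I * ((-β : ℝ) : ℂ) / 2 * (v - mir vc) ^ 2) := by
    rw [e]
    simp only [map_add, map_mul, map_neg, conj_conj, map_pow, map_div₀, conj_I, conj_ofReal,
      map_ofNat]
    push_cast
    ring
  rw [e2, conj_re]

theorem wr_mirror (r : ℝ) (v : ℂ) : (wr (-r) v).re = (wr r (mir v)).re := by
  rw [wr_reW, wr_reW, mir_im, mir_re]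
  ring

theorem vcC_neg {i : Fin (m + 1)} (h : σ i = -1) : (cfgOf a σ z).vc i =
    gdv (UU (xx (z i).re (z i).im) (th (z i).re (z i).im)) := by
  unfold Cfg.vc
  rw [uc_neg h]
  rfl

theorem vcC_pos {i : Fin (m + 1)} (hθ : |th (z i).re (z i).im| < Real.pi / 2) (h : σ i = 1) :
    (cfgOf a σ z).vc i = mir (gdv (UU (xx (z i).re (z i).im) (th (z i).re (z i).im))) := by
  unfold Cfg.vc
  rw [uc_pos h]
  have e : -((starRingEnd ℂ) (E.uu (z i))) =
      UU (-(xx (z i).re (z i).im)) (th (z i).re (z i).im) := by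
    unfold E.uu
    rw [UU_conj, UU_neg, neg_neg]
  rw [e, gdv_refl hθ, mir]

theorem r_neg {i : Fin (m + 1)} (h : σ i = -1) : (cfgOf a σ z).r i = -(a i : ℝ) / 2 := by
  show (σ i : ℝ) * a i / 2 = _
  rw [h]; push_cast; ring

theorem r_pos {i : Fin (m + 1)} (h : σ i = 1) : (cfgOf a σ z).r i = -(-(a i : ℝ) / 2) := by
  show (σ i : ℝ) * a i / 2 = _
  rw [h]; push_cast; ring

theorem evC {j : Fin m} (H : EdC a σ z j) {i : Fin (m + 1)}
    (hi : ¬ clo a i) (hj : i = j.castSucc ∨ i = j.succ) :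
    -(ev ((cfgOf a σ z).yc j) ((cfgOf a σ z).vc i)) / 2 = Qv σ z j i := by
  rcases hj with h | h
  · rw [h, H.ev1 (h ▸ hi)]; ring
  · rw [h, H.ev2 (h ▸ hi)]; ring

/-- The share of a vertex with the sign `-1`. -/
theorem lw_neg {j : Fin m} (H : EdC a σ z j) {v1 : Fin (m + 1) → ℝ} {i : Fin (m + 1)}
    (hi : ¬ clo a i) (hj : i = j.castSucc ∨ i = j.succ) (s : σ i = -1) (v : ℂ) :
    (cfgOf a σ z).lw v1 (lamC a z) j i v =
      lwf (th (z i).re (z i).im) (v1 i) (gdv (UU (xx (z i).re (z i).im) (th (z i).re (z i).im)))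
        (qe (z i) (z (oth j i))) (bw (z i) (z (oth j i))) (a i) v := by
  unfold Cfg.lw Cfg.lv lwf
  rw [if_pos (mem_Op.2 hi), if_pos (mem_Op.2 hi), evC H hi hj, Qv_neg s, vcC_neg s, r_neg s,
    β_eq, s]
  have e : (2 * Real.pi * ((-1 : ℤ) : ℝ) * bw (z i) (z (if i = j.castSucc then j.succ else
      j.castSucc))) = -2 * Real.pi * bw (z i) (z (oth j i)) := by
    unfold oth
    push_cast
    ring
  rw [e]
  rfl

/-- The share of a vertex with the sign `1`. -/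
theorem lw_pos {j : Fin m} (H : EdC a σ z j) {v1 : Fin (m + 1) → ℝ} {i : Fin (m + 1)}
    (hv1 : V1 (v1 i)) (hθ : |th (z i).re (z i).im| < Real.pi / 2)
    (hi : ¬ clo a i) (hj : i = j.castSucc ∨ i = j.succ) (s : σ i = 1) (v : ℂ) :
    (cfgOf a σ z).lw v1 (lamC a z) j i v =
      lwf (th (z i).re (z i).im) (v1 i) (gdv (UU (xx (z i).re (z i).im) (th (z i).re (z i).im)))
        (qe (z i) (z (oth j i))) (bw (z i) (z (oth j i))) (a i) (mir v) := by
  unfold Cfg.lw Cfg.lv lwf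
  rw [if_pos (mem_Op.2 hi), if_pos (mem_Op.2 hi), evC H hi hj, Qv_pos s, vcC_pos hθ s, r_pos s,
    β_eq, s]
  have e : (2 * Real.pi * ((1 : ℤ) : ℝ) * bw (z i) (z (if i = j.castSucc then j.succ else
      j.castSucc))) = -(-2 * Real.pi * bw (z i) (z (oth j i))) := by
    unfold oth
    push_cast
    ring
  rw [e, wr_mirror, wr_mirror, pl_mir hv1, ← ell_mirror]
  rfl

/-- The data of an open-open edge: `n`, `p` are the coordinates of the vertices with the signs `-1`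
and `1`. -/
structure OOD (Φ : ℂ → ℂ → ℂ) (n p : ℂ) (an ap v1 v1' : ℝ) : Prop where
  hθ : Ht (th n.re n.im)
  hθ' : Ht (th p.re p.im)
  hr : n.re / Real.pi < v1
  hr' : p.re / Real.pi < v1'
  flat : FlatAll (th n.re n.im) (th p.re p.im) v1 v1'
  flatc : FlatC (th n.re n.im) (th p.re p.im) (xx n.re n.im) (xx p.re p.im)
  ends : EndAll Φ (th n.re n.im) (th p.re p.im) (xx n.re n.im) (xx p.re p.im) (bw n p) (bw p n)
    v1 v1' (mu (bw n p) an v1) (mu (bw p n) ap v1')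
  gL : GainL Φ (th n.re n.im) (th p.re p.im) v1 v1' (mu (bw n p) an v1)
  gR : GainR Φ (th n.re n.im) (th p.re p.im) v1 v1' (mu (bw p n) ap v1')

theorem gdv_re_eq (h : Zr (fun i => (a i : ℝ)) chL chR 1 z) (i : Fin (m + 1)) :
    (gdv (UU (xx (z i).re (z i).im) (th (z i).re (z i).im))).re = (z i).re / Real.pi := by
  have h1 := h.gd_uu i
  rw [gd_eq (by rw [UU_im]; exact abs_th_lt (h.pos i).1 (h.pos i).2.1 (h.pos i).2.2)] at h1
  have h2 := congrArg Complex.re h1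
  rw [re_ofReal_mul] at h2
  rw [eq_div_iff Real.pi_ne_zero]
  linarith

theorem OOD.oo {Φ : ℂ → ℂ → ℂ} (hΦ : IsPhi Φ) (h0 : Φ 0 0 = c00)
    (h : Zr (fun i => (a i : ℝ)) chL chR 1 z) {n p : Fin (m + 1)}
    (hnp : chL n = some p ∨ chR n = some p) {v1 v1' : ℝ} (hv : V1 v1) (hv' : V1 v1')
    (D : OOD Φ (z n) (z p) (a n) (a p) v1 v1') :
    OO Φ (th (z n).re (z n).im) (th (z p).re (z p).im) (xx (z n).re (z n).im)
      (xx (z p).re (z p).im) (bw (z n) (z p)) (bw (z p) (z n)) v1 v1' where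
  hΦ := hΦ
  h0 := h0
  ho := h.oppHyp hnp
  hs := h.split hnp
  hc := h.xxpos n
  hc' := h.xxpos p
  hθ := D.hθ
  hθ' := D.hθ'
  hv1 := hv
  hv1' := hv'
  hr := by rw [gdv_re_eq h]; exact D.hr
  hr' := by rw [gdv_re_eq h]; exact D.hr'

theorem apos (ha : ∀ i, 2 ≤ a i) (i : Fin (m + 1)) : (0 : ℝ) < a i := by
  have := ha i
  have h : 0 < a i := by omega
  exact_mod_cast h

/-- **Open-open edges: the estimate away from the critical point.** -/
theorem far_oo {Φ : ℂ → ℂ → ℂ} (hΦ : IsPhi Φ) (h0 : Φ 0 0 = c00)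
    (h : Zr (fun i => (a i : ℝ)) chL chR 1 z) (ha : ∀ i, 2 ≤ a i)
    {v1 : Fin (m + 1) → ℝ} (hv1 : ∀ i, V1 (v1 i)) {j : Fin m} (H : EdC a σ z j)
    (c1 : ¬ clo a j.castSucc) (c2 : ¬ clo a j.succ)
    (hD : (σ j.castSucc = -1 ∧ σ j.succ = 1 ∧ OOD Φ (z j.castSucc) (z j.succ) (a j.castSucc)
        (a j.succ) (v1 j.castSucc) (v1 j.succ)) ∨
      (σ j.castSucc = 1 ∧ σ j.succ = -1 ∧ OOD Φ (z j.succ) (z j.castSucc) (a j.succ)
        (a j.castSucc) (v1 j.succ) (v1 j.castSucc))) {v w : ℂ}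
    (hv : v ∈ G0 ((cfgOf a σ z).θ j.castSucc) (v1 j.castSucc))
    (hw : w ∈ G0 ((cfgOf a σ z).θ j.succ) (v1 j.succ))
    (hne : v ≠ (cfgOf a σ z).vc j.castSucc ∨ w ≠ (cfgOf a σ z).vc j.succ) :
    EdgeOK ((cfgOf a σ z).sv j.castSucc v) ((cfgOf a σ z).sv j.succ w)
      ((cfgOf a σ z).Lw v1 (lamC a z) j v w) := by
  have e1 : (cfgOf a σ z).sv j.castSucc v = .op v := if_pos (mem_Op.2 c1)
  have e2 : (cfgOf a σ z).sv j.succ w = .op w := if_pos (mem_Op.2 c2)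
  have t1 := abs_th_lt (h.pos j.castSucc).1 (h.pos j.castSucc).2.1 (h.pos j.castSucc).2.2
  have t2 := abs_th_lt (h.pos j.succ).1 (h.pos j.succ).2.1 (h.pos j.succ).2.2
  rcases hD with ⟨s1, s2, D⟩ | ⟨s1, s2, D⟩
  · have K := D.oo hΦ h0 h (Or.inr (chR_castSucc j)) (hv1 _) (hv1 _)
    rw [vcC_neg s1, vcC_pos t2 s2] at hne
    have k := K.far D.flat D.flatc D.ends D.gL D.gR (apos ha _) (apos ha _) hv hw hne
    rw [e1, e2]
    convert k using 1
    unfold Cfg.Lw LL1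
    rw [lw_neg H c1 (Or.inl rfl) s1, lw_pos H (hv1 _) t2 c2 (Or.inr rfl) s2, oth_cs, oth_su]
    unfold Cfg.Fc
    rw [slc_op c1, slc_op c2, vcC_neg s1, vcC_pos t2 s2, yc_eq, if_pos s1]
    unfold E.uu
    rw [UU_conj]
    rfl
  · have K := D.oo hΦ h0 h (Or.inl (chL_succ j)) (hv1 _) (hv1 _)
    rw [vcC_neg s2, vcC_pos t1 s1] at hne
    have k := (K.far D.flat D.flatc D.ends D.gL D.gR (apos ha _) (apos ha _) hw hv hne.symm).symm
    rw [e1, e2]
    convert k using 1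
    unfold Cfg.Lw LL1
    rw [lw_neg H c2 (Or.inr rfl) s2, lw_pos H (hv1 _) t1 c1 (Or.inl rfl) s1, oth_cs, oth_su]
    unfold Cfg.Fc
    rw [slc_op c1, slc_op c2, vcC_neg s2, vcC_pos t1 s1, yc_eq, if_neg (by rw [s1]; decide)]
    unfold E.uu
    rw [UU_conj]
    have e : ∀ σ τ y, EE τ σ y = EE σ τ y := fun σ τ y => by rw [EE, EE, add_comm]
    rw [e]
    unfold qe
    ring

/-- **Open-open edges: the estimate at the critical point.** -/
theorem near_oo {Φ : ℂ → ℂ → ℂ} (hΦ : IsPhi Φ) (h0 : Φ 0 0 = c00)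
    (h : Zr (fun i => (a i : ℝ)) chL chR 1 z)
    {v1 : Fin (m + 1) → ℝ} (hv1 : ∀ i, V1 (v1 i)) {j : Fin m}
    (c1 : ¬ clo a j.castSucc) (c2 : ¬ clo a j.succ)
    (hD : (σ j.castSucc = -1 ∧ σ j.succ = 1 ∧ OOD Φ (z j.castSucc) (z j.succ) (a j.castSucc)
        (a j.succ) (v1 j.castSucc) (v1 j.succ)) ∨
      (σ j.castSucc = 1 ∧ σ j.succ = -1 ∧ OOD Φ (z j.succ) (z j.castSucc) (a j.succ)
        (a j.castSucc) (v1 j.succ) (v1 j.castSucc))) :
    EdgeC ((cfgOf a σ z).slc j.castSucc) ((cfgOf a σ z).slc j.succ) ((cfgOf a σ z).yc j)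
      ((cfgOf a σ z).Fc j) := by
  have t1 := abs_th_lt (h.pos j.castSucc).1 (h.pos j.castSucc).2.1 (h.pos j.castSucc).2.2
  have t2 := abs_th_lt (h.pos j.succ).1 (h.pos j.succ).2.1 (h.pos j.succ).2.2
  rcases hD with ⟨s1, s2, D⟩ | ⟨s1, s2, D⟩
  · have K := D.oo hΦ h0 h (Or.inr (chR_castSucc j)) (hv1 _) (hv1 _)
    have k := K.near D.flatc D.ends
    unfold Cfg.Fc
    rw [slc_op c1, slc_op c2, vcC_neg s1, vcC_pos t2 s2, yc_eq, if_pos s1]
    unfold E.uu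
    rw [UU_conj]
    exact k
  · have K := D.oo hΦ h0 h (Or.inl (chL_succ j)) (hv1 _) (hv1 _)
    have k := (K.near D.flatc D.ends).symm
    unfold Cfg.Fc
    rw [slc_op c1, slc_op c2, vcC_neg s2, vcC_pos t1 s1, yc_eq, if_neg (by rw [s1]; decide)]
    unfold E.uu
    rw [UU_conj]
    have e : ∀ σ τ y, EE τ σ y = EE σ τ y := fun σ τ y => by rw [EE, EE, add_comm]
    rw [e]
    exact k

end

end Pool.Agent.S3
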