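import Pool.Agent.S3.Cl.Vert
import Pool.Agent.S3.Quad
import Pool.Agent.S3.W.Vert

/-!
# Open-open edges: points of the contour and the polygon
-/

set_option autoImplicit false

namespace Pool.Agent.S3

open Complex
open Pool.Agent.H25.RK (gdv gdv_re_lt gdv_hasDerivAt)

/-- For real `v` the growth of a slot is decreasing in `v`. -/
theorem se_real_anti {a b : ℝ} (ha : 0 ≤ a) (hab : a ≤ b) (hb : b ≤ 1 / 2) {y : ℂ} (h0 : 0 ≤ y.re)
    (h1 : y.re ≤ 1 / 2) : se y (.op (b : ℂ)) ≤ se y (.op (a : ℂ)) := by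
  have := Cl.real_anti (η := y.im) ha hab hb h0 h1
  rw [re_add_im] at this
  unfold EE at this
  linarith

section

variable {θ θ' v1 : ℝ} {v w : ℂ} {Φ : ℂ → ℂ → ℂ}

/-- The abscissa of the vertical part. -/
structure V1 (v1 : ℝ) : Prop where
  pos : 0 < v1
  le : v1 ≤ 1 / 3

/-- The comparison point of a point of the contour with `0 ≤ re v`. -/
noncomputable def cmp (v1 : ℝ) (v : ℂ) : ℂ := if v.re ≤ v1 then v else ((v1 : ℝ) : ℂ)

theorem cmp_und (hv1 : V1 v1) (h : v ∈ G0 θ v1) (h0 : 0 ≤ v.re) (hθ : Ht θ) :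
    Und θ (cmp v1 v) := by
  have v0 := hv1.pos
  have v3 := hv1.le
  unfold cmp
  split_ifs with hc
  · rcases h with ⟨a, b⟩ | ⟨a, b, c⟩ | ⟨a, b, c⟩
    · have hv : |v.re| < 1 / 2 := by linarith
      exact ⟨h0, by linarith, by rw [b]; exact bl_nonneg hθ.pos.le hθ.lt hv.le, b.le⟩
    · rw [abs_of_nonneg h0] at a
      exact ⟨h0, by linarith, b, by rw [a]; exact c⟩
    · rw [abs_of_nonneg h0] at a
      have hv : |v.re| < 1 / 2 := by rw [abs_of_nonneg h0]; linarith
      exact ⟨h0, by linarith, c.ge, by rw [c]; exact bl_nonneg hθ.pos.le hθ.lt hv.le⟩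
  · refine ⟨by rw [ofReal_re]; exact v0.le, by rw [ofReal_re]; exact v3, by simp, ?_⟩
    rw [ofReal_im, ofReal_re]
    exact bl_nonneg hθ.pos.le hθ.lt (by rw [abs_of_pos v0]; linarith)

theorem cmp_im (h : v ∈ G0 θ v1) (h0 : 0 ≤ v.re) : (cmp v1 v).im = v.im := by
  unfold cmp
  split_ifs with hc
  · rfl
  · rw [ofReal_im]
    push Not at hc
    rcases h with ⟨a, b⟩ | ⟨a, b, c⟩ | ⟨a, b, c⟩
    · rw [abs_of_nonneg h0] at a; linarith
    · rw [abs_of_nonneg h0] at a; linarith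
    · exact c.symm

theorem se_cmp (hv1 : V1 v1) (h : v ∈ G0 θ v1) (h0 : 0 ≤ v.re) {y : ℂ} (y0 : 0 ≤ y.re)
    (y1 : y.re ≤ 1 / 2) : se y (.op v) ≤ se y (.op (cmp v1 v)) := by
  have v0 := hv1.pos
  have v3 := hv1.le
  unfold cmp
  split_ifs with hc
  · exact le_rfl
  · push Not at hc
    have e : v = ((v.re : ℝ) : ℂ) := by
      have := cmp_im h h0
      unfold cmp at this
      rw [if_neg (not_le.2 hc), ofReal_im] at this
      apply Complex.ext
      · rw [ofReal_re]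
      · rw [ofReal_im, this]
    have h1 : v.re ≤ 1 / 2 := by
      rcases h with ⟨a, b⟩ | ⟨a, b, c⟩ | ⟨a, b, c⟩
      · rw [abs_of_nonneg h0] at a; linarith
      · rw [abs_of_nonneg h0] at a; linarith
      · rwa [abs_of_nonneg h0] at b
    rw [e]
    exact se_real_anti v0.le hc.le h1 y0 y1

theorem up_cmp (hv1 : V1 v1) (h0 : 0 ≤ v.re) : up θ (cmp v1 v) = pl θ v1 v := by
  have v0 := hv1.pos
  unfold cmp up pl
  split_ifs with hc
  · rw [min_eq_right hc, max_eq_right (by linarith)]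
  · push Not at hc
    rw [min_eq_left hc.le, max_eq_right (by linarith), ofReal_re]

/-- The slot of the conjugate point. -/
theorem EE_conj_mir (y v w : ℂ) :
    EE (.op v) (.op ((starRingEnd ℂ) w)) y = EE (.op v) (.op (mir w)) y := by
  rw [mir, EE_neg_right]

/-- The polygon with one horizontal side of height `h`. -/
theorem pol_one {h : ℝ} {P : ℂ → Prop} (h1 : ∀ t ∈ Set.Icc (0 : ℝ) (1 / 2), P (t + h * I))
    (h2 : ∀ Y ∈ Set.uIcc 0 h, P (((0 : ℝ) : ℂ) + Y * I))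
    (h3 : ∀ Y ∈ Set.uIcc 0 h, P (((1 / 2 : ℝ) : ℂ) + Y * I)) :
    PolOn 1 (fun i => if i = 0 then 0 else 1 / 2) (fun _ => h) P := by
  refine ⟨?_, ?_, ?_, ?_⟩
  · intro i hi x hx
    have : i = 0 := by omega
    subst this
    exact h1 x (by simpa using hx)
  · intro Y hY
    exact h2 Y hY
  · intro i hi; omega
  · intro Y hY
    rw [Set.uIcc_comm] at hY
    exact h3 Y hY

theorem pgn_one' {h : ℝ} (hh : |h| ≤ 1) :
    Pgn 1 (fun i => if i = 0 then 0 else 1 / 2) (fun _ => h) where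
  n1 := le_rfl
  t0 := by simp
  tn := by simp
  mono := by intro i hi; have : i = 0 := by omega
             subst this; simp
  ht := fun _ _ => hh

/-- The flat inequality for a pair. -/
def FlatOK (v w : ℂ) : Prop := ∀ t ∈ Set.Icc (0 : ℝ) (1 / 2),
  EE (.op v) (.op ((starRingEnd ℂ) w)) ((t : ℂ) + (yv v w).im * I) ≤
    EE (.op v) (.op ((starRingEnd ℂ) w)) (yv v w)

/-- The polygon of a core pair: all values are less than `L` if this is true at `0` and at the
critical point. -/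
theorem Pr.poly (hΦ : IsPhi Φ) (h0 : Φ 0 0 = c00) (h : Pr θ θ' v w) (hF : FlatOK v w) {L : ℝ}
    (hB : Real.pi * (v.im + w.im) < L) (hL : (Φ v ((starRingEnd ℂ) w)).re < L) :
    PolOn 1 (fun i => if i = 0 then 0 else 1 / 2) (fun _ => (yv v w).im)
      (fun y => EE (.op v) (.op ((starRingEnd ℂ) w)) y < L ∧ 0 ≤ y.re ∧ y.re ≤ 1 / 2) := by
  have hb := h.bridge hΦ h0
  have hf : ∀ t ∈ Set.Icc (0 : ℝ) (1 / 2),
      EE (.op v) (.op ((starRingEnd ℂ) w)) ((t : ℂ) + (yv v w).im * I) < L := fun t ht => by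
    have := hF t ht
    rw [hb] at this
    exact this.trans_lt hL
  apply pol_one
  · intro t ht
    exact ⟨hf t ht, by rw [line_re]; exact ht.1, by rw [line_re]; exact ht.2⟩
  · intro Y hY
    refine ⟨(h.left hY).trans_lt (max_lt hB (hf 0 ⟨le_rfl, by norm_num⟩)), ?_, ?_⟩
    · rw [line_re]
    · rw [line_re]; norm_num
  · intro Y hY
    have k := EE_right (v := v) (w := (starRingEnd ℂ) w) h.hv.re0
      (by linarith [h.hv.re1]) (by rw [conj_re]; exact h.hw.re0)
      (by rw [conj_re]; linarith [h.hw.re1]) hY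
    refine ⟨k.trans_lt (hf (1 / 2) ⟨by norm_num, le_rfl⟩), ?_, ?_⟩
    · rw [line_re]; norm_num
    · rw [line_re]

/-- The estimate of the edge for a core pair. -/
theorem Pr.edgeOK (hΦ : IsPhi Φ) (h0 : Φ 0 0 = c00) (h : Pr θ θ' v w) (hF : FlatOK v w) {L : ℝ}
    (hB : Real.pi * (v.im + w.im) < L)
    (hE : ∀ y ∈ Set.Icc (-(1 / 10) : ℝ) 0, EE (.op v) (.op w) y < L)
    (hL : (Φ v ((starRingEnd ℂ) w)).re < L) : EdgeOK (.op v) (.op (mir w)) L := by
  refine ⟨?_, ?_, 1, _, _, pgn_one' h.yv_im, ?_⟩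
  · have : B0 (.op v) + B0 (.op (mir w)) = Real.pi * (v.im + w.im) := by
      rw [B0_mir, B0, B0]; ring
    rw [this]
    exact hB
  · intro y hy
    have : EE (.op v) (.op (mir w)) y = EE (.op v) (.op w) y := by
      rw [EE, EE, se_mir_real]
    rw [this]
    exact hE y hy
  · have k := h.poly hΦ h0 hF hB hL
    obtain ⟨g1, g2, g3, g4⟩ := k
    simp only [EE_conj_mir] at g1 g2 g3 g4
    exact ⟨fun i hi x hx => (g1 i hi x hx).1, fun Y hY => (g2 Y hY).1,
      fun i hi Y hY => (g3 i hi Y hY).1, fun Y hY => (g4 Y hY).1⟩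

end

end Pool.Agent.S3
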